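import Pool.Agent.H28.RJ.Pkg
import Pool.Agent.H28.RV.Rcd

/-!
# The rates of the jets at the windows of a box: use

`RtU.rv`: the rate of the velocity as the rate of a list of jets. `rv_top`: at one box the jet of the
order `j` is alive given the near path and the jets of the orders larger than `j`. `RvU.top`: at all
windows of the small boxes. `RvU.up`: if the rate is small all jets of the list are few bits.
-/

set_option autoImplicit false

namespace Pool.RJ28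

open Finset Real MvPolynomial
open Pool.Agent.H49.Ent Pool.Agent.H32.Dense Pool.STK Pool.KA Pool.KSAT Pool.K2S Pool.PB Pool.S6C
  Pool.GEN Pool.RCD Pool.LA91 Pool.LP30 Pool.LPJ30
open Pool.OWN68 (cl2_vg F1)
open Pool.FLN19 (AlvQ)
open Pool.RV28 (RtU RtW ex_sm der_box nrW_τ)

variable {m : ℕ} {S : PCl m} {γ : ∀ J : ℕ, Fam m J → Type}
  {y₀ : ∀ (J : ℕ) (F : Fam m J), F.Ω → γ J F} {c : ℕ → Fin m} {d : ℕ}
  {sn : ℕ → ℝ → ℝ} {G : Set ℝ}

/-- The rate of the velocities as a rate of jets of order one. -/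
theorem RtU.rv {n : ℕ} {k : Fin n → Fin m} {T : Fin n → ℝ → ℝ} {g φ : ℝ}
    (h : RtU S y₀ c d k sn T G g φ) : RvU S y₀ c d k (fun _ => 1) sn T G g φ := by
  intro e he
  obtain ⟨κ₀, hκ, r₀, hr, H⟩ := h e he
  refine ⟨κ₀, hκ, r₀, hr, fun r h1 h2 b hb x o a1 a2 a3 a4 nH nV lv hN _ => ?_⟩
  obtain ⟨k1, hk1, e1, he1, H1⟩ := H r h1 h2 b hb x o a1 a2 a3 a4 nH nV lv hN
  refine ⟨k1, hk1, e1, he1, fun K => Bas.mono 0 (H1 K) ?_⟩
  intro J _ F A H V z hz u pa hu hpa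
  refine H V z hz u pa ?_ hpa
  intro i
  have := hu i
  simpa using this

section top

variable {k : Fin m} {T : ℝ → ℝ} {n j : ℕ} {nH nV : ℕ → ℝ} {b x o ρ κ ρ' κ' η' : ℝ}

/-- **The jet of order `j` is alive** given the near path and the jets of the larger orders. -/
theorem rv_top
    (hpos : ∀ (τ : ℝ) (J : ℕ) (F : Fam m J) (A : F.Ω → Prop), S.St τ J F A → 0 < Pe F.p A)
    (hη : ∃ η, RNum S (fun J F => ptr F J) (vg x) η)
    (h1 : RtV S y₀ c d (fun _ : Fin (n + 1) => k) (fun i => odv j i) sn (fun _ w => T w) nH nV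
      b x o ρ κ)
    (h2 : RtV S y₀ c d (fun _ : Fin n => k) (fun i => odv (j + 1) i) sn (fun _ w => T w) nH nV
      b x o ρ' κ') (hη' : η' ≤ ρ - κ - (ρ' + κ')) :
    ∃ e : ℝ, 0 < e ∧ AlvQ S x y₀
      ((paQ m c d b (fun l => sn l b) nH nV).prod (jtR m c d (fun _ : Fin n => k)
        (fun i => odv (j + 1) i) (fun _ w => T w) b (fun i => T o - (odv (j + 1) i : ℕ) * o)))
      (qJet m ((range d).image c) k j b (T b) (T o - (j : ℕ) * o)) e η' := by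
  obtain ⟨k1, hk1, e1, he1, H1⟩ := h1
  obtain ⟨k2, hk2, e2, he2, H2⟩ := h2
  obtain ⟨η, hη⟩ := hη
  obtain ⟨e₀, he₀, l1, l2⟩ : ∃ e₀ : ℝ, 0 < e₀ ∧ e₀ ≤ e1 ∧ e₀ ≤ e2 :=
    ⟨min e1 e2, by positivity, by simp, by simp⟩
  obtain ⟨κ₁, hκ₁, m1, m2⟩ : ∃ κ : ℝ, 0 < κ ∧ κ ≤ k1 ∧ κ ≤ k2 :=
    ⟨min k1 k2, by positivity, by simp, by simp⟩
  refine ⟨e₀, he₀, fun K => ?_⟩
  refine Bas.mono 0 (((H1 K).and (H2 K)).and ((mx_ex hpos hη κ₁ hκ₁).and (pos_bas hpos))) ?_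
  rintro J - F B ⟨⟨H1, H2⟩, ⟨V₀, z₀, hz₀⟩, hB⟩ u u' hu hu' V z hz
  have h0 := (isLaw_cond F.isLaw hB).nonneg
  have hJ0 : (0 : ℝ) ≤ J := Nat.cast_nonneg J
  have hzz : Mx (fun J F => ptr F J) (vg x) κ₁ F B (fun ω => (z ω, z₀ ω)) := by
    refine ⟨hz.join hz₀.1, fun V' z' hz' => le_trans (CH_mono_cond h0 fun ω ω' _ _ hh => ?_)
      (hz₀.2 V' z' hz')⟩
    exact (Prod.ext_iff.mp hh).2
  have hv : (jtR m c d (fun _ : Fin (n + 1) => k) (fun i => odv j i) (fun _ w => T w) b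
      (fun i => T o - (odv j i : ℕ) * o)).P K e₀ J F B
      (fun ω => (Fin.cons (u' ω) ((u ω).2) : Fin (n + 1) → ℤ)) := by
    intro i
    refine Fin.cases ?_ (fun i => ?_) i
    · simp only [Fin.cons_zero]
      have e5 : odv j ((0 : Fin (n + 1)) : Fin (n + 1)) = j := by
        unfold odv
        simp
      rw [e5]
      exact hu'
    · simp only [Fin.cons_succ]
      have e5 : odv j (i.succ : Fin (n + 1)) = odv (j + 1) i := by
        unfold odv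
        simp only [Fin.val_succ]
        omega
      rw [e5]
      exact hu.2 i
  have r1 := (abs_le.1 (H1 _ _ (hzz.le' m1) _ (fun ω => (u ω).1)
    ((jtR m c d (fun _ : Fin (n + 1) => k) (fun i => odv j i) (fun _ w => T w) b _).mono
      le_rfl l1 hv) ((paQ m c d b (fun l => sn l b) nH nV).mono le_rfl l1 hu.1))).1
  have r2 := (abs_le.1 (H2 _ _ (hzz.le' m2) (fun ω => (u ω).2) (fun ω => (u ω).1)
    ((jtR m c d (fun _ : Fin n => k) (fun i => odv (j + 1) i) (fun _ w => T w) b _).mono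
      le_rfl l2 hu.2) ((paQ m c d b (fun l => sn l b) nH nV).mono le_rfl l2 hu.1))).2
  have s1 : CH (Pool.Agent.H49.Ent.cond F.p B True)
      (fun ω => (Fin.cons (u' ω) ((u ω).2) : Fin (n + 1) → ℤ))
      (fun ω => ((u ω).1, ((z ω, z₀ ω), y₀ J F ω))) ≤
      CH (Pool.Agent.H49.Ent.cond F.p B True) (fun ω => (u' ω, (u ω).2))
      (fun ω => ((u ω).1, ((z ω, z₀ ω), y₀ J F ω))) := by
    refine CH_mono_left h0 fun ω ω' _ _ hh => ?_
    simp only [Prod.mk.injEq] at hh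
    rw [hh.1.1, hh.1.2]
  have s2 := CH_chain h0 u' (fun ω => (u ω).2) (fun ω => ((u ω).1, ((z ω, z₀ ω), y₀ J F ω)))
  have s3 : CH (Pool.Agent.H49.Ent.cond F.p B True) u'
      (fun ω => ((u ω).2, ((u ω).1, ((z ω, z₀ ω), y₀ J F ω)))) ≤
      CH (Pool.Agent.H49.Ent.cond F.p B True) u' (fun ω => (u ω, (z ω, y₀ J F ω))) := by
    refine CH_mono_cond h0 fun ω ω' _ _ hh => ?_
    simp only [Prod.mk.injEq] at hh ⊢
    exact ⟨Prod.ext hh.2.1 hh.1, hh.2.2.1.1, hh.2.2.2⟩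
  have s4 : η' * J ≤ (ρ - κ - (ρ' + κ')) * J := mul_le_mul_of_nonneg_right hη' hJ0
  have s5 : (ρ - κ - (ρ' + κ')) * J = ρ * J - κ * J - (ρ' * J + κ' * J) := by ring
  linarith

end top

section rec

variable {k : Fin m} {T : ℝ → ℝ} {n j : ℕ} {g φ φ' : ℝ}

/-- **The jet of order `j` is alive** at all windows of the small boxes around `g`, given the near path
and the jets of the larger orders, with the rate `c' < φ - φ'`. -/
theorem RvU.top
    (hpos : ∀ (τ : ℝ) (J : ℕ) (F : Fam m J) (A : F.Ω → Prop), S.St τ J F A → 0 < Pe F.p A)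
    (h1 : RvU S y₀ c d (fun _ : Fin (n + 1) => k) (fun i => odv j i) sn (fun _ w => T w) G g φ)
    (h2 : RvU S y₀ c d (fun _ : Fin n => k) (fun i => odv (j + 1) i) sn (fun _ w => T w) G g φ')
    {c' R θ : ℝ} (hc' : c' < φ - φ') (hR : 0 < R) (hθ : 0 < θ) :
    ∃ e : ℝ, 0 < e ∧ ∃ κ₀ : ℝ, 0 < κ₀ ∧ ∃ q₁ : ℝ, 0 < q₁ ∧ ∀ q b x o : ℝ, 0 < q → q < q₁ →
      b ∈ G → g - R * q ≤ b → b ≤ x → x + θ * q ≤ o → o ≤ g + R * q →
      (∃ η, RNum S (fun J F => ptr F J) (vg x) η) →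
      ∀ nH nV lv : ℕ → ℝ, NrW sn d (fun (_ : Fin 1) w => T w) nH nV lv b o (e * q) κ₀ →
      (∀ l < d, ∀ l' < l, 3 * (lv l + e * q) ≤ lv l') →
      ∃ e₀ : ℝ, 0 < e₀ ∧ AlvQ S x y₀
        ((paQ m c d b (fun l => sn l b) nH nV).prod (jtR m c d (fun _ : Fin n => k)
          (fun i => odv (j + 1) i) (fun _ w => T w) b (fun i => T o - (odv (j + 1) i : ℕ) * o)))
        (qJet m ((range d).image c) k j b (T b) (T o - (j : ℕ) * o)) e₀ (c' * (o - x)) := by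
  obtain ⟨ε, hε, hε4⟩ : ∃ ε : ℝ, 0 < ε ∧ 4 * ε ≤ (φ - φ' - c') * θ := by
    have h1 : 0 < (φ - φ' - c') * θ := mul_pos (by linarith) hθ
    exact ⟨(φ - φ' - c') * θ / 4, by positivity, by linarith⟩
  have hεR : 0 < ε / R := by positivity
  obtain ⟨κ₁, hκ₁, r₁, hr₁, H1⟩ := h1 (ε / R) hεR
  obtain ⟨κ₂, hκ₂, r₂, hr₂, H2⟩ := h2 (ε / R) hεR
  obtain ⟨q₂, hq₂, Q2⟩ := ex_sm hR (lt_min hr₁ hr₂)
  refine ⟨ε, hε, min κ₁ κ₂, lt_min hκ₁ hκ₂, q₂, hq₂,
    fun q b x o hq hqq hb a1 a2 a3 a4 hη nH nV lv hN hgp => ?_⟩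
  have z2 := Q2 q hq hqq
  have w1 : R * q < r₁ := z2.trans_le (min_le_left _ _)
  have w2 : R * q < r₂ := z2.trans_le (min_le_right _ _)
  have hRq : 0 < R * q := mul_pos hR hq
  have hθq : 0 < θ * q := mul_pos hθ hq
  have eR : ε / R * (R * q) = ε * q := by field_simp
  have hN' : ∀ (κ : ℝ) (N : ℕ), min κ₁ κ₂ ≤ κ →
      NrW sn d (fun (_ : Fin N) w => T w) nH nV lv b o (ε / R * (R * q)) κ := by
    intro κ N hκ
    rw [eR]
    exact
    { lv0 := hN.lv0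
      h := hN.h
      v := hN.v
      s := hN.s
      sh := hN.sh
      sv := hN.sv
      t := fun i l hl => hN.t 0 l hl
      kh := fun l hl => by linarith [hN.kh l hl]
      kv := fun l hl => by linarith [hN.kv l hl] }
  have v1 := H1 (R * q) hRq w1 b hb x o a1 a2 (by linarith) a4 nH nV lv
    (hN' κ₁ (n + 1) (min_le_left _ _)) (by rw [eR]; exact hgp)
  have v2 := H2 (R * q) hRq w2 b hb x o a1 a2 (by linarith) a4 nH nV lv
    (hN' κ₂ n (min_le_right _ _)) (by rw [eR]; exact hgp)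
  rw [eR] at v1 v2
  refine rv_top hpos hη v1 v2 ?_
  have h3 : 4 * ε * q ≤ (φ - φ' - c') * θ * q := mul_le_mul_of_nonneg_right hε4 hq.le
  have h4 : 0 < ε * q := by positivity
  have h5 : (φ - φ' - c') * (θ * q) ≤ (φ - φ' - c') * (o - x) :=
    mul_le_mul_of_nonneg_left (by linarith) (by linarith)
  linarith

/-- **The rate of the velocity** is at most the rate of the jets of the orders `1, …`. -/
theorem rtU_le_rvU (hne : S.Ne)
    (hpos : ∀ (τ : ℝ) (J : ℕ) (F : Fam m J) (A : F.Ω → Prop), S.St τ J F A → 0 < Pe F.p A)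
    {Sg : ℝ} (hη : ∀ w : ℚ, ∃ η, RNum S (fun J F => ptr F J) (vg (w : ℝ)) η)
    (hW : ChG S c d sn G) (hg : g ∈ G)
    (hat : ∀ b ∈ G, ∃ rk, 0 ≤ rk ∧ Att S ((range d).image c) k b (T b) rk)
    (hSg : 0 ≤ Sg) (hT : TgB (fun (_ : Fin 1) w => T w) g Sg)
    (h1 : RvU S y₀ c d (fun _ : Fin (n + 1) => k) (fun i => odv 1 i) sn (fun _ w => T w) G g φ)
    (h2 : RtU S y₀ c d (fun _ : Fin 1 => k) sn (fun _ w => T w) G g φ') : φ' ≤ φ := by
  refine rvU_mono hne hpos (fun _ : Fin 1 => (0 : Fin (n + 1))) hη hW hg (fun _ => hat) hSg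
    (fun η hη => ?_) h1 ?_
  · obtain ⟨ρ, hρ, H⟩ := hT η hη
    exact ⟨ρ, hρ, fun t ht htρ _ w v a b c => H t ht htρ 0 w v a b c⟩
  · have e1 : (fun _ : Fin 1 => odv 1 (0 : Fin (n + 1))) = fun _ => 1 := by
      funext i
      unfold odv
      simp
    rw [e1]
    exact RtU.rv h2

end rec

end Pool.RJ28
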