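import Pool.Agent.H28.RJ.Fix
import Pool.Agent.H28.RV.Real
import Pool.Agent.H30.LPJ.Nij

/-!
# The number of the jets of the targets given the near path, at real windows: one box

`RtJ`: given the near path over the charts of `b` and the record at `x`, the jets of the targets to the
natural digits of `o` have `ρ` bits, up to `κ`, also given the near jets of the second kind.
`rj_real`: from the statements at the indices.
-/

set_option autoImplicit false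

namespace Pool.RJ28

open Finset Real MvPolynomial
open Pool.Agent.H49.Ent Pool.Agent.H32.Dense Pool.STK Pool.KA Pool.KSAT Pool.K2S Pool.PB Pool.S6C
  Pool.GEN Pool.RCD Pool.LA91 Pool.LP30 Pool.LPJ30
open Pool.OWN83 (TwoRelS TRelS)
open Pool.OWN68 (cl2_vg)
open Pool.RV28 (SdI yG swap_up swap_lo)

variable {m : ℕ} {S : PCl m} {γ : ∀ J : ℕ, Fam m J → Type}
  {y₀ : ∀ (J : ℕ) (F : Fam m J), F.Ω → γ J F}

/-- **The number of bits of the jets of the targets** over the charts of `b`, to the natural digits of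
`o`, given the near path over the charts of `b` and the record at `x`: `ρ`, up to `κ`; the lower bound
even given the near jets of the second kind. -/
def RtJ (S : PCl m) (y₀ : ∀ (J : ℕ) (F : Fam m J), F.Ω → γ J F) (c : ℕ → Fin m) (d : ℕ)
    {n n' : ℕ} (k : Fin n → Fin m) (od : Fin n → ℕ) (kB : Fin n' → Fin m) (oB : Fin n' → ℕ)
    (sn : ℕ → ℝ → ℝ) (T : Fin n → ℝ → ℝ) (TB : Fin n' → ℝ → ℝ) (nH nV : ℕ → ℝ) (nB : Fin n' → ℝ)
    (b x o ρ κ : ℝ) : Prop :=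
  ∃ κ₁ : ℝ, 0 < κ₁ ∧ ∃ e₀ : ℝ, 0 < e₀ ∧ ∀ K : ℕ, Bas S (fun J F A =>
    ∀ (V : Type) (z : F.Ω → V), Mx (fun J F => ptr F J) (vg x) κ₁ F A z →
    ∀ u q pa, (jtR m c d k od T b (fun i => T i o - od i * o)).P K e₀ J F A u →
    (jtR m c d kB oB TB b nB).P K e₀ J F A q →
    (paQ m c d b (fun l => sn l b) nH nV).P K e₀ J F A pa →
    (ρ - κ) * J ≤ CH (Pool.Agent.H49.Ent.cond F.p A True) u
      (fun ω => ((pa ω, q ω), (z ω, y₀ J F ω))) ∧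
    CH (Pool.Agent.H49.Ent.cond F.p A True) u (fun ω => (pa ω, (z ω, y₀ J F ω))) ≤ (ρ + κ) * J)

theorem RtJ.sub {S' : PCl m} (hs : ∀ (τ : ℝ) (J : ℕ) (F : Fam m J) (A : F.Ω → Prop),
    S'.St τ J F A → S.St τ J F A) {c : ℕ → Fin m} {d n n' : ℕ} {k : Fin n → Fin m}
    {od : Fin n → ℕ} {kB : Fin n' → Fin m} {oB : Fin n' → ℕ}
    {sn : ℕ → ℝ → ℝ} {T : Fin n → ℝ → ℝ} {TB : Fin n' → ℝ → ℝ} {nH nV : ℕ → ℝ}
    {nB : Fin n' → ℝ} {b x o ρ κ : ℝ}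
    (h : RtJ S y₀ c d k od kB oB sn T TB nH nV nB b x o ρ κ) :
    RtJ S' y₀ c d k od kB oB sn T TB nH nV nB b x o ρ κ := by
  obtain ⟨k₁, hk, e, he, H⟩ := h
  exact ⟨k₁, hk, e, he, fun K => (H K).sub hs⟩

/-- Another rate and a larger error. -/
theorem RtJ.le {c : ℕ → Fin m} {d n n' : ℕ} {k : Fin n → Fin m}
    {od : Fin n → ℕ} {kB : Fin n' → Fin m} {oB : Fin n' → ℕ}
    {sn : ℕ → ℝ → ℝ} {T : Fin n → ℝ → ℝ} {TB : Fin n' → ℝ → ℝ} {nH nV : ℕ → ℝ}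
    {nB : Fin n' → ℝ} {b x o ρ κ ρ' κ' : ℝ}
    (h : RtJ S y₀ c d k od kB oB sn T TB nH nV nB b x o ρ κ)
    (hκ : |ρ - ρ'| + κ ≤ κ') : RtJ S y₀ c d k od kB oB sn T TB nH nV nB b x o ρ' κ' := by
  obtain ⟨k1, hk1, e1, he1, H⟩ := h
  refine ⟨k1, hk1, e1, he1, fun K => Bas.mono 0 (H K) ?_⟩
  intro J _ F A H V z hz u q pa hu hq hpa
  obtain ⟨h1, h1'⟩ := H V z hz u q pa hu hq hpa
  have hJ : (0 : ℝ) ≤ J := Nat.cast_nonneg J
  have h2 := abs_le.1 (le_refl |ρ - ρ'|)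
  have h3 : (ρ' - κ') * J ≤ (ρ - κ) * J := mul_le_mul_of_nonneg_right (by linarith [h2.1]) hJ
  have h4 : (ρ + κ) * J ≤ (ρ' + κ') * J := mul_le_mul_of_nonneg_right (by linarith [h2.2]) hJ
  exact ⟨by linarith, by linarith⟩

/-- From above, at the indices: the record at `zw`, the charts at `wc`, digits `Po`. -/
def UpJ (S : PCl m) (y₀ : ∀ (J : ℕ) (F : Fam m J), F.Ω → γ J F) (c : ℕ → Fin m) (d : ℕ) {n : ℕ}
    (k : Fin n → Fin m) (od : Fin n → ℕ) (sn : ℕ → ℝ → ℝ)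
    (T : Fin n → ℝ → ℝ) (nH nV : ℕ → ℝ) (wc zw : ℝ) (Po : Fin n → ℝ) (κ : ℝ) : Prop :=
  ∀ ε : ℝ, 0 < ε → ∃ κ₁ : ℝ, 0 < κ₁ ∧ ∃ e₀ : ℝ, 0 < e₀ ∧ ∀ K : ℕ, Bas S (fun J F A =>
    ∀ (V : Type) (z : F.Ω → V), Mx (fun J F => ptr F J) (vg zw) κ₁ F A z →
    ∀ u pa, (jtR m c d k od T wc Po).P K e₀ J F A u →
    (paQ m c d wc (fun l => sn l wc) nH nV).P K e₀ J F A pa →
    CH (Pool.Agent.H49.Ent.cond F.p A True) u (fun ω => (pa ω, (z ω, y₀ J F ω))) ≤ (κ + ε) * J)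

/-- From below, at the indices: the record at `zv`, the charts at `wc`, digits `Po`. -/
def LoJ (S : PCl m) (y₀ : ∀ (J : ℕ) (F : Fam m J), F.Ω → γ J F) (c : ℕ → Fin m) (d : ℕ)
    {n n' : ℕ} (k : Fin n → Fin m) (od : Fin n → ℕ) (kB : Fin n' → Fin m) (oB : Fin n' → ℕ)
    (sn : ℕ → ℝ → ℝ) (T : Fin n → ℝ → ℝ) (TB : Fin n' → ℝ → ℝ) (nH nV : ℕ → ℝ) (nB : Fin n' → ℝ)
    (wc zv : ℝ) (Po : Fin n → ℝ) (κ : ℝ) : Prop :=
  ∀ ε : ℝ, 0 < ε → ∃ κ₁ : ℝ, 0 < κ₁ ∧ ∃ e₀ : ℝ, 0 < e₀ ∧ ∀ K : ℕ, Bas S (fun J F A =>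
    ∀ (V : Type) (z : F.Ω → V), Mx (fun J F => ptr F J) (vg zv) κ₁ F A z →
    ∀ u q pa, (jtR m c d k od T wc Po).P K e₀ J F A u → (jtR m c d kB oB TB wc nB).P K e₀ J F A q →
    (paQ m c d wc (fun l => sn l wc) nH nV).P K e₀ J F A pa →
    (κ - ε) * J ≤ CH (Pool.Agent.H49.Ent.cond F.p A True) u
      (fun ω => ((pa ω, q ω), (z ω, y₀ J F ω))))

section

variable {sn : ℕ → ℝ → ℝ} {d n n' : ℕ} {T : Fin n → ℝ → ℝ} {G : Set ℝ} {nH nV lv : ℕ → ℝ}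
  {b x o wc vc oc E X Sg φ R κ₀ : ℝ}
  {od : Fin n → ℕ} {oB : Fin n' → ℕ} {TB : Fin n' → ℝ → ℝ} {nB : Fin n' → ℝ} {Ob : ℝ}

/-- **From the indices to the real windows.** -/
theorem rj_real {c : ℕ → Fin m} {k : Fin n → Fin m} {kB : Fin n' → Fin m} {C₀ : ℝ}
    (hsd : SdI c y₀) (htm : TmC S C₀)
    (hpos : ∀ (τ : ℝ) (J : ℕ) (F : Fam m J) (A : F.Ω → Prop), S.St τ J F A → 0 < Pe F.p A)
    (hW : ChG S c d sn G)
    (att : ∀ i, ∀ w ∈ G, ∃ rk : ℝ, 0 ≤ rk ∧ Att S ((range d).image c) (k i) w (T i w) rk)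
    (attB : ∀ i, ∀ w ∈ G, ∃ rk : ℝ, 0 ≤ rk ∧ Att S ((range d).image c) (kB i) w (TB i w) rk)
    (h : BoxJ sn d T od oB TB G nH nV lv nB b x x o wc vc oc E X Sg Ob φ R κ₀)
    {zw zv ρ ρ₁ ρ₂ κ E₂ : ℝ} (hzw : zw ≤ x) (hzv : x ≤ zv) (hzv1 : zv ≤ 1) (hE₂ : 0 ≤ E₂)
    (hη : ∃ η, RNum S (fun J F => ptr F J) (vg zw) η)
    (hη' : ∃ η, RNum S (fun J F => ptr F J) (vg zv) η) {Po : Fin n → ℝ}
    (hPo1 : ∀ i, Po i ≤ T i o - od i * o + E₂) (hPo2 : ∀ i, T i o - od i * o ≤ Po i + E₂)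
    (hU : UpJ S y₀ c d k od sn T nH nV wc zw Po ρ₁)
    (hL : LoJ S y₀ c d k od kB oB sn T TB nH nV nB wc zv Po ρ₂)
    (h1 : ρ₁ ≤ ρ + κ) (h2 : ρ - κ ≤ ρ₂) {ε : ℝ} (hε : 0 < ε) :
    RtJ S y₀ c d k od kB oB sn T TB nH nV nB b x o ρ (κ + n * E₂ + ε) := by
  obtain ⟨δ, hδ, hδε⟩ : ∃ δ : ℝ, 0 < δ ∧ 8 * δ = ε := ⟨ε / 8, by positivity, by ring⟩
  have hb := h.bx
  obtain ⟨W, hWG, hWm, bW, wW, Wx⟩ := hb.mx
  have hfp : ∀ (J : ℕ) (F : Fam m J), ∃ χ : PtT F → PtT F, ∀ ω, ptr F J ω = χ (ptr F J ω) :=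
    fun J F => ⟨fun x => x, fun _ => rfl⟩
  have nb := hb.nrB hWm bW Wx
  have nw := hb.nrW hWm wW Wx
  have hi : HiW sn d lv (X / 2 / 2) G W := by
    have h1 := h.hi W hWm
    have h2 : X / 4 = X / 2 / 2 := by ring
    rwa [h2] at h1
  have hl2 : 0 < Real.log 2 := Real.log_pos one_lt_two
  have hl21 : Real.log 2 ≤ 1 := by
    have := Real.log_two_lt_d9
    linarith
  have hlog : ∀ {t : ℝ}, t ≤ E₂ → Real.log 2 * t ≤ E₂ := by
    intro t h1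
    rcases le_total t 0 with h2 | h2
    · have : Real.log 2 * t ≤ 0 := mul_nonpos_of_nonneg_of_nonpos hl2.le h2
      linarith
    · have : Real.log 2 * t ≤ 1 * t := mul_le_mul_of_nonneg_right hl21 h2
      linarith
  have hx1 : x ≤ 1 := hzv.trans hzv1
  obtain ⟨pp3, pp4⟩ := hb.pp hWm Wx
  have pp3' : ∀ l < d, nH l + X / 2 ≤ min (sn l wc) (sn l b) + (1 - W) ∧
      nV l + W + X / 2 ≤ min (sn l wc) (sn l b) + (1 - W) := fun l hl => by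
    rw [min_comm]
    exact pp3 l hl
  have pp4' : ∀ l < d, ∀ l' < l, nH l + X / 2 ≤ min (sn l wc) (sn l b) + lv l' ∧
      nV l + W + X / 2 ≤ min (sn l wc) (sn l b) + lv l' := fun l hl => by
    rw [min_comm]
    exact pp4 l hl
  -- up
  have up : ∀ {U U' : Type} {Q : Qt m U} {Q' : Qt m U'} {a v : ℝ}, W ≤ v → v ≤ 1 →
      FewC S (fun J F => ptr F J) (vg W) y₀ Q Q' a →
      FewC S (fun J F => ptr F J) (vg v) y₀ Q Q' a := fun h1 h2 h3 =>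
    FewC.up hpos (fun J F => ⟨fun x => x, fun _ => rfl⟩) (fun J F => vg_mono h1 h2 J F)
      (fun J F => ⟨fun x => x, fun _ => rfl⟩) h3
  -- the jets of the first kind
  have q1 := up Wx hx1 (fewC_jt (f := fun J F => ptr F J) (y := y₀) htm hpos hW hfp hsd.kn
    hWG nb hi (k := k) (od := od) (w₁ := wc) (w₂ := b) (p₁ := fun i => T i wc) (p₂ := fun i => T i b)
    (N₁ := Po) (N₂ := fun i => T i o - od i * o)
    (M := fun i => min (Po i) (T i o - od i * o)) (c₀ := E₂) wW bW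
    (fun i => min_le_left _ _) (fun i => min_le_right _ _) (fun i => by
      refine hlog ?_
      rcases min_choice (Po i) (T i o - od i * o) with h2 | h2 <;> rw [h2] <;> linarith [hPo2 i])
    (fun i => by
      rw [min_comm (T i wc)]
      exact (h.tt hWm Wx i (Or.inl (min_le_right _ _))).1)
    (fun i => by
      rw [min_comm (T i wc)]
      exact (h.tt hWm Wx i (Or.inl (min_le_right _ _))).2))
  have q6 := up (Wx.trans hzv) hzv1 (fewC_jt (f := fun J F => ptr F J) (y := y₀) htm hpos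
    hW hfp hsd.kn hWG nb hi (k := k) (od := od) (w₁ := b) (w₂ := wc) (p₁ := fun i => T i b)
    (p₂ := fun i => T i wc)
    (N₁ := fun i => T i o - od i * o) (N₂ := Po)
    (M := fun i => min (T i o - od i * o) (Po i)) (c₀ := E₂) bW wW
    (fun i => min_le_left _ _) (fun i => min_le_right _ _) (fun i => by
      refine hlog ?_
      rcases min_choice (T i o - od i * o) (Po i) with h2 | h2 <;> rw [h2] <;> linarith [hPo1 i])
    (fun i => (h.tt hWm Wx i (Or.inl (min_le_left _ _))).1)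
    (fun i => (h.tt hWm Wx i (Or.inl (min_le_left _ _))).2))
  -- the jets of the second kind
  have b3 := up (Wx.trans hzv) hzv1 (fewC_jt (f := fun J F => ptr F J) (y := y₀) htm hpos
    hW hfp hsd.kn hWG nw hi (k := kB) (od := oB) (w₁ := wc) (w₂ := b) (p₁ := fun i => TB i wc)
    (p₂ := fun i => TB i b) (N₁ := nB) (N₂ := nB) (M := nB) (c₀ := 0) wW bW
    (fun i => le_rfl) (fun i => le_rfl) (fun i => by rw [sub_self, mul_zero])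
    (fun i => by
      rw [min_comm]
      exact (h.tb hWm Wx i).1) (fun i => by
      rw [min_comm]
      exact (h.tb hWm Wx i).2))
  -- the near path
  have q3 := up Wx hx1 (few_paC (f := fun J F => ptr F J) (y := y₀) htm hpos hW hfp hsd.kn
    hWG nb wW pp3 pp4).fewC
  have q5 := up (Wx.trans hzv) hzv1 (few_paC (f := fun J F => ptr F J) (y := y₀) htm hpos
    hW hfp hsd.kn hWG nw bW pp3' pp4').fewC
  obtain ⟨k0, hk0, e0, he0, H0⟩ := hU δ hδ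
  obtain ⟨k0', hk0', e0', he0', H0'⟩ := hL δ hδ
  obtain ⟨e1, he1, H1⟩ := q1.mx hpos δ hδ
  obtain ⟨e3, he3, H3⟩ := q3.mx hpos δ hδ
  obtain ⟨e5, he5, H5⟩ := q5.mx hpos (δ / 2) (half_pos hδ)
  obtain ⟨e6, he6, H6⟩ := q6.mx hpos δ hδ
  obtain ⟨f3, hf3, L3⟩ := b3.mx hpos (δ / 2) (half_pos hδ)
  obtain ⟨e₀, he₀, l0, l0', l1, l3, l5, l6, g3⟩ : ∃ e₀ : ℝ, 0 < e₀ ∧ e₀ ≤ e0 ∧ e₀ ≤ e0' ∧
      e₀ ≤ e1 ∧ e₀ ≤ e3 ∧ e₀ ≤ e5 ∧ e₀ ≤ e6 ∧ e₀ ≤ f3 := by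
    refine ⟨min (min (min e0 e0') (min e1 e3)) (min (min e5 e6) f3), by positivity,
      ?_, ?_, ?_, ?_, ?_, ?_, ?_⟩ <;> simp
  obtain ⟨κ₁, hκ₁, m1, m1', m2⟩ : ∃ κ₁ : ℝ, 0 < κ₁ ∧ κ₁ ≤ k0 ∧ κ₁ ≤ k0' ∧ κ₁ ≤ δ / 4 :=
    ⟨min (min k0 k0') (δ / 4), by positivity, by simp, by simp, by simp⟩
  have xw : Exs S (jtR m c d k od T wc Po) := exs_pi fun i => by
    obtain ⟨rk, r1, r2⟩ := att i wc hb.gw
    exact exs_jet r1 r2
  have xB : Exs S (jtR m c d kB oB TB wc nB) := exs_pi fun i => by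
    obtain ⟨rk, r1, r2⟩ := attB i wc hb.gw
    exact exs_jet r1 r2
  obtain ⟨K₁, M₁, X1⟩ := xw e₀ he₀
  obtain ⟨K₃, M₃, X3⟩ := exs_pa hW hb.gw nH nV e₀ he₀
  obtain ⟨K₄, M₄, X4⟩ := xB e₀ he₀
  obtain ⟨η, hη⟩ := hη
  obtain ⟨η', hη'⟩ := hη'
  refine ⟨κ₁, hκ₁, e₀, he₀, fun K => ?_⟩
  obtain ⟨L, hL0, hL1, hL3, hL4⟩ : ∃ L : ℕ, K ≤ L ∧ K₁ ≤ L ∧ K₃ ≤ L ∧ K₄ ≤ L :=
    ⟨max (max K K₁) (max K₃ K₄), by simp, by simp, by simp, by simp⟩
  refine Bas.mono 0 (((((H0 L).and (H0' L)).and ((H1 L).and (H3 L))).and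
    (((H5 L).and (H6 L)).and (L3 L))).and
    (((mx_ex hpos hη κ₁ hκ₁).and (mx_ex hpos hη' κ₁ hκ₁)).and
      ((pos_bas hpos).and (X1.and (X3.and X4))))) ?_
  rintro J - F A ⟨⟨⟨⟨H0, H0'⟩, H1, H3⟩, ⟨H5, H6⟩, L3⟩, ⟨⟨Vw, zq, hzq⟩, Vv, zr, hzr⟩, hA,
    ⟨v, hv, -⟩, ⟨pb, hpb, -⟩, qb, hqb, -⟩ V z hz u q pa hu hq hpa
  have hcl := isLaw_cond F.isLaw hA
  have hJ0 : (0 : ℝ) ≤ J := Nat.cast_nonneg J
  have hv := (jtR m c d k od T wc Po).mono hL1 le_rfl hv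
  have hpb := (paQ m c d wc (fun l => sn l wc) nH nV).mono hL3 le_rfl hpb
  have hqb := (jtR m c d kB oB TB wc nB).mono hL4 le_rfl hqb
  have hu := (jtR m c d k od T b (fun i => T i o - od i * o)).mono hL0 le_rfl hu
  have hpa := (paQ m c d b (fun l => sn l b) nH nV).mono hL0 le_rfl hpa
  have hq := (jtR m c d kB oB TB b nB).mono hL0 le_rfl hq
  -- the records
  have hz3 := hz.le' (m2.trans (by linarith : δ / 4 ≤ δ / 2))
  have hzr2 := hzr.le' (m2.trans (by linarith : δ / 4 ≤ δ / 2 / 2))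
  have hzr3 := hzr.le' (m2.trans (by linarith : δ / 4 ≤ δ / 2))
  have r0 := H0 _ zq (hzq.le' m1) v pb ((jtR m c d k od T wc Po).mono le_rfl l0 hv)
    ((paQ m c d _ _ nH nV).mono le_rfl l0 hpb)
  have r0' := H0' _ zr (hzr.le' m1') v qb pb ((jtR m c d k od T wc Po).mono le_rfl l0' hv)
    ((jtR m c d kB oB TB wc nB).mono le_rfl l0' hqb)
    ((paQ m c d _ _ nH nV).mono le_rfl l0' hpb)
  have r1 := H1 _ z hz3 (fun ω => (pa ω, v ω)) u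
    ⟨(paQ m c d _ _ nH nV).mono le_rfl l1 hpa, (jtR m c d k od T wc Po).mono le_rfl l1 hv⟩
    ((jtR m c d k od T b _).mono le_rfl l1 hu)
  have r3 := H3 _ z hz3 pa pb ((paQ m c d _ _ nH nV).mono le_rfl l3 hpa)
    ((paQ m c d _ _ nH nV).mono le_rfl l3 hpb)
  have r5 := H5 _ zr hzr2 pb pa ((paQ m c d _ _ nH nV).mono le_rfl l5 hpb)
    ((paQ m c d _ _ nH nV).mono le_rfl l5 hpa)
  have r6 := H6 _ zr hzr3 (fun ω => (pa ω, u ω)) v
    ⟨(paQ m c d _ _ nH nV).mono le_rfl l6 hpa, (jtR m c d k od T b _).mono le_rfl l6 hu⟩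
    ((jtR m c d k od T wc Po).mono le_rfl l6 hv)
  have s3 := L3 _ zr hzr2 (fun ω => (pb ω, qb ω)) q
    ⟨(paQ m c d _ _ nH nV).mono le_rfl g3 hpb, (jtR m c d kB oB TB wc nB).mono le_rfl g3 hqb⟩
    ((jtR m c d kB oB TB b nB).mono le_rfl g3 hq)
  have r4 := hz.2 _ zq (cl2_vg (f := fun J F => ptr F J) hzw hx1 hzq.1)
  have r7 := hzr.2 _ z (cl2_vg (f := fun J F => ptr F J) hzv hzv1 hz.1)
  simp only [mul_zero, zero_add] at s3 r3 r5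
  have hδJ : 0 ≤ δ * J := by positivity
  have hκJ : κ₁ * J ≤ δ * J := mul_le_mul_of_nonneg_right (by linarith) hJ0
  have h2J : δ / 2 * J = δ * J / 2 := by ring
  rw [h2J] at s3 r5
  -- the pairs
  have t5 : CH (Pool.Agent.H49.Ent.cond F.p A True) (fun ω => (pa ω, q ω))
      (fun ω => ((pb ω, qb ω), (zr ω, y₀ J F ω))) ≤ δ * J := by
    have h1 := CH_subadd hcl.nonneg pa q (fun ω => ((pb ω, qb ω), (zr ω, y₀ J F ω)))
    have h2 : CH (Pool.Agent.H49.Ent.cond F.p A True) pa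
        (fun ω => ((pb ω, qb ω), (zr ω, y₀ J F ω))) ≤
        CH (Pool.Agent.H49.Ent.cond F.p A True) pa (fun ω => (pb ω, (zr ω, y₀ J F ω))) :=
      CH_mono_cond hcl.nonneg fun ω ω' _ _ hh => by
        have h3 := Prod.ext_iff.mp hh
        exact Prod.ext (Prod.ext_iff.mp h3.1).1 h3.2
    linarith
  have dr' : CH (Pool.Agent.H49.Ent.cond F.p A True) v
      (fun ω => (((pa ω, q ω), u ω), (zr ω, y₀ J F ω))) ≤
      CH (Pool.Agent.H49.Ent.cond F.p A True) v (fun ω => ((pa ω, u ω), (zr ω, y₀ J F ω))) :=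
    CH_mono_cond hcl.nonneg fun ω ω' _ _ hh => by
      simp only [Prod.mk.injEq] at hh ⊢
      tauto
  have k1 := swap_up hcl.nonneg (q := Pool.Agent.H49.Ent.cond F.p A True) (u := u)
    (v := v) (pa := pa) (pb := pb) (w := y₀ J F) (x := z) (z := zq) r0 r1 r3 (r4.trans hκJ)
  have k2 := swap_lo hcl.nonneg (q := Pool.Agent.H49.Ent.cond F.p A True) (u := u)
    (v := v) (pa := fun ω => (pa ω, q ω)) (pb := fun ω => (pb ω, qb ω)) (w := y₀ J F) (x' := z)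
    (z' := zr) r0' t5 (dr'.trans r6) (r7.trans hκJ)
  have g1 : ρ₁ * J ≤ (ρ + κ) * J := mul_le_mul_of_nonneg_right h1 hJ0
  have g2 : (ρ - κ) * J ≤ ρ₂ * J := mul_le_mul_of_nonneg_right h2 hJ0
  constructor
  · have e1 : (ρ - (κ + n * E₂ + ε)) * J =
        (ρ - κ) * J - n * E₂ * J - 8 * (δ * J) := by
      rw [← hδε]
      ring
    have e2 : (ρ₂ - δ) * J = ρ₂ * J - δ * J := by ring
    have e4 : ((n : ℝ) * E₂ + δ) * J = n * E₂ * J + δ * J := by ring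
    rw [e1]
    rw [e2, e4] at k2
    linarith
  · have e1 : (ρ + (κ + n * E₂ + ε)) * J =
        (ρ + κ) * J + n * E₂ * J + 8 * (δ * J) := by
      rw [← hδε]
      ring
    have e2 : (ρ₁ + δ) * J = ρ₁ * J + δ * J := by ring
    have e4 : ((n : ℝ) * E₂ + δ) * J = n * E₂ * J + δ * J := by ring
    rw [e1]
    rw [e2, e4] at k1
    linarith

end

end Pool.RJ28
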