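import Pool.Agent.H28.RJ.Uni
import Pool.Agent.H28.RV.Pkg

/-!
# The rates of countably many lists of jets, in one subclass

`ndj_all`: one subclass with the numbers for all admissible data, all upper ends, countably many
lists of jets. `rj_all`: `RjG` at almost every window smaller than one. `rj_le`: all places of a
chain, all orders.
-/

set_option autoImplicit false

namespace Pool.RJ28

open Finset Real MvPolynomial MeasureTheory
open Pool.Agent.H49.Ent Pool.Agent.H32.Dense Pool.STK Pool.KA Pool.KSAT Pool.K2S Pool.PB Pool.S6C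
  Pool.GEN Pool.RCD Pool.LA91 Pool.LP30 Pool.LPJ30
open Pool.OWN83 (TwoRelS TRelS ae_shift rel_clsS)
open Pool.AVG96 (fl fl_mem fl_mono le_fl whG gap_ae)
open Pool.RV28 (SdI yG vchG der_box fin_ev)

section

variable {m : ℕ} {S : PCl m} {γ : ∀ J : ℕ, Fam m J → Type}
  {y₀ : ∀ (J : ℕ) (F : Fam m J), F.Ω → γ J F} {c : ℕ → Fin m} {d : ℕ} {s a A B g Sg : ℝ}
  {sn : ℕ → ℝ → ℝ} {G : Set ℝ} {ι₀ : Type} [Countable ι₀] {nn : ι₀ → ℕ}
  {k : ∀ x, Fin (nn x) → Fin m} {od : ∀ x, Fin (nn x) → ℕ} {T : ∀ x, Fin (nn x) → ℝ → ℝ}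
  {n' : ℕ} {kB : Fin n' → Fin m} {oB : Fin n' → ℕ} {TB : Fin n' → ℝ → ℝ}

/-- **One subclass** with the numbers for all admissible data, all upper ends, countably many
lists. -/
theorem ndj_all (hsd : SdI c y₀) (hK : ∀ B : ℝ, B < 1 → NiC S c d kB sn TB G s A B)
    (h : ∀ x, ∀ B : ℝ, B < 1 → NiC S c d (k x) sn (T x) G s A B)
    (od : ∀ x, Fin (nn x) → ℕ) (oB : Fin n' → ℕ)
    (hA : ∃ u ∈ G, A ≤ u ∧ u ≤ a + s) :
    ∃ S' : PCl m, S'.Ne ∧
      (∀ (τ : ℝ) (J : ℕ) (F : Fam m J) (A : F.Ω → Prop), S'.St τ J F A → S.St τ J F A) ∧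
      ∃ (θ₀ : ι₀ → EIxJ d n' → ℚ → ℝ) (θ : ι₀ → EIxJ d n' → ℚ → ℚ → ℝ), ∀ x, ∀ B : ℝ, B < 1 →
        NjN S' (fun J F => ptr F J) (yG ((range d).image c) y₀) c d s a (B - s) (whG G A s) sn G
          (k x) (od x) (fun i w => T x i (whG G A s w)) kB oB (fun i w => TB i (whG G A s w))
          (θ₀ x) (θ x) := by
  classical
  have h0 := hK 0 one_pos
  have hcut : ∀ i : {i : ι₀ × EIxJ d n' // AdmJ (whG G A s) sn d G
      (fun j w => T i.1 j (whG G A s w)) oB (fun j w => TB j (whG G A s w)) a (1 - s) i.2 ∧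
      (i.2.b : ℝ) < 1 - s},
      TwoRelS S (fun J F => ptr F J) (yG ((range d).image c) y₀) s
        (cdQ m c d (whG G A s) sn (exN i.1.2.N) kB oB (fun j w => TB j (whG G A s w)) i.1.2.DB)
        (fun w o => jtQ m c d (k i.1.1) (od i.1.1) (whG G A s) (fun j w => T i.1.1 j (whG G A s w))
          (fun j => pfQ (whG G A s) (od i.1.1) (fun j w => T i.1.1 j (whG G A s w)) i.1.2.b j o) w)
        i.1.2.a i.1.2.b i.1.2.lam := by
    intro i
    have hB : (i.1.2.b : ℝ) + s < 1 := by linarith [i.2.2]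
    have h1 := vchG (hK _ hB) hsd hA
    have h2 := (h i.1.1 _ hB).tgc hA
    have h3 := (hK _ hB).tgc hA
    rw [add_sub_cancel_right] at h1 h2 h3
    exact AdmJ.rel h1 h2 h3 ⟨i.2.1.ed, i.2.1.tg, i.2.1.bd, i.2.1.lam0, i.2.1.ha, le_rfl⟩
  obtain ⟨S', h1, h2, h3⟩ := rel_clsS
    (ι := {i : ι₀ × EIxJ d n' // AdmJ (whG G A s) sn d G
      (fun j w => T i.1 j (whG G A s w)) oB (fun j w => TB j (whG G A s w)) a (1 - s) i.2 ∧
      (i.2.b : ℝ) < 1 - s}) h0.ne h0.pos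
    (fun _ => (Fin d → ℤ) × (Fin n' → ℤ)) (fun i => Fin (nn i.1.1) → ℤ) (fun _ => fun J F => PtT F)
    (fun _ => fun J F => (Fin m → ℤ) × γ J F) (fun _ => fun J F => ptr F J)
    (fun _ => yG ((range d).image c) y₀)
    (fun _ => s)
    (fun i => cdQ m c d (whG G A s) sn (exN i.1.2.N) kB oB (fun j w => TB j (whG G A s w)) i.1.2.DB)
    (fun i w o => jtQ m c d (k i.1.1) (od i.1.1) (whG G A s) (fun j w => T i.1.1 j (whG G A s w))
      (fun j => pfQ (whG G A s) (od i.1.1) (fun j w => T i.1.1 j (whG G A s w)) i.1.2.b j o) w)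
    (fun i => i.1.2.a) (fun i => i.1.2.b) (fun i => i.1.2.lam) hcut
    (fun i => by exact_mod_cast i.2.1.lam0)
  choose θ₀ θ hθ using h3
  refine ⟨S', h1, h2,
    fun x i => if hi : AdmJ (whG G A s) sn d G
      (fun j w => T x j (whG G A s w)) oB (fun j w => TB j (whG G A s w)) a (1 - s) i ∧
      (i.b : ℝ) < 1 - s then θ₀ ⟨(x, i), hi⟩ else fun _ => 0,
    fun x i => if hi : AdmJ (whG G A s) sn d G
      (fun j w => T x j (whG G A s w)) oB (fun j w => TB j (whG G A s w)) a (1 - s) i ∧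
      (i.b : ℝ) < 1 - s then θ ⟨(x, i), hi⟩ else fun _ _ => 0, fun x B hB i hi => ?_⟩
  have hi' : AdmJ (whG G A s) sn d G
      (fun j w => T x j (whG G A s w)) oB (fun j w => TB j (whG G A s w)) a (1 - s) i ∧
      (i.b : ℝ) < 1 - s := by
    have := hi.hb
    exact ⟨⟨hi.ed, hi.tg, hi.bd, hi.lam0, hi.ha, by linarith⟩, by linarith⟩
  simp only [dif_pos hi']
  exact hθ ⟨(x, i), hi'⟩

/-- **The rates of the jets, at almost every window**, in a subclass, countably many lists. -/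
theorem rj_all (hsd : SdI c y₀) (hK : ∀ B : ℝ, B < 1 → NiC S c d kB sn TB G s A B)
    (h : ∀ x, ∀ B : ℝ, B < 1 → NiC S c d (k x) sn (T x) G s A B)
    (od : ∀ x, Fin (nn x) → ℕ) (oB : Fin n' → ℕ) :
    ∃ S' : PCl m, S'.Ne ∧
      (∀ (τ : ℝ) (J : ℕ) (F : Fam m J) (A : F.Ω → Prop), S'.St τ J F A → S.St τ J F A) ∧
      ∀ᵐ g : ℝ, ∀ x, g ∈ G → A < g → g < 1 → (∀ l < d, sn l g < 1) → ∀ Sg : ℝ, 0 ≤ Sg →
        SlB sn d (T x) G g Sg → TgB (T x) g Sg → LoB (od x) (T x) G g → SlK oB TB G g →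
        RjG S' y₀ c d (k x) (od x) kB oB sn (T x) TB G g := by
  have hb := hK 0 one_pos
  by_cases hne : (G ∩ Set.Icc A 1).Nonempty
  swap
  · refine ⟨S, hb.ne, fun _ _ _ _ h => h, Filter.Eventually.of_forall fun g x h1 h2 h3 => ?_⟩
    exact absurd ⟨g, h1, h2.le, h3.le⟩ hne
  obtain ⟨u₀, hu₀⟩ : ∃ u₀, u₀ = sInf (G ∩ Set.Icc A 1) := ⟨_, rfl⟩
  have hbd : BddBelow (G ∩ Set.Icc A 1) := ⟨A, fun x hx => hx.2.1⟩
  have hum : u₀ ∈ G ∩ Set.Icc A 1 := by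
    rw [hu₀]
    exact (hb.cl.inter isClosed_Icc).csInf_mem hne hbd
  obtain ⟨a, ha⟩ : ∃ a, a = u₀ - s := ⟨_, rfl⟩
  have hA : ∃ u ∈ G, A ≤ u ∧ u ≤ a + s := ⟨u₀, hum.1, hum.2.1, by rw [ha]; linarith⟩
  obtain ⟨S', g1, g2, θ₀, θ, hN⟩ := ndj_all hsd hK h od oB hA
  refine ⟨S', g1, g2, ?_⟩
  have h3 : ∀ᵐ g : ℝ, ∀ x : ι₀, ∀ B : ℚ, (B : ℝ) < 1 →
      CrJ (whG G A s) sn d G (fun i w => T x i (whG G A s w)) oB
        (fun i w => TB i (whG G A s w)) a (B - s) (g - s) →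
      ∀ e : ℝ, 0 < e → ∀ ρ : ℝ, 0 < ρ → ∃ (φ : ℝ) (i : EIxJ d n'), GdRJ (whG G A s) sn d G
      (fun i w => T x i (whG G A s w)) oB (fun i w => TB i (whG G A s w)) a (B - s)
      (θ₀ x) (θ x) (g - s) e ρ φ i := by
    rw [ae_all_iff]
    intro x
    rw [ae_all_iff]
    intro B
    by_cases hB : (B : ℝ) < 1
    · have h' := (hK B hB).sub g1 g2
      have h4 := ae_shift (ndrJ_ae (vchG h' hsd hA) (((h x B hB).sub g1 g2).tgc hA) (h'.tgc hA)
        (hN x B hB)) s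
      filter_upwards [h4] with g h5 _
      exact h5
    · exact Filter.Eventually.of_forall fun g h1 => absurd h1 hB
  have h5 : ∀ᵐ g : ℝ, g ≠ u₀ := (measure_eq_zero_iff_ae_notMem.1 (measure_singleton u₀)).mono
    fun g hg he => hg (by rw [he]; exact Set.mem_singleton u₀)
  filter_upwards [h3, h5] with g h6 h7 x hgG hAg hg1 s1 Sg hSg hsl htg hlo hsk
  have h8 : u₀ < g := lt_of_le_of_ne (by
    rw [hu₀]
    exact csInf_le hbd ⟨hgG, hAg.le, hg1.le⟩) (Ne.symm h7)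
  obtain ⟨B, hB1, hB2⟩ := exists_rat_btwn hg1
  exact rj_box hsd ((h x B hB2).sub g1 g2) ((hK B hB2).sub g1 g2) hA (hN x B hB2) hgG hAg hB1 s1
    hSg hsl htg hlo hsk fun e he ρ hρ =>
    h6 x B hB2 (crj_of hb.cl hgG hAg hg1 hb.mn s1 hSg hsl hsk (by rw [ha]; linarith)
      (by linarith)) e he ρ hρ

end

section

variable {m : ℕ} {S : PCl m} {γ : ∀ J : ℕ, Fam m J → Type}
  {y₀ : ∀ (J : ℕ) (F : Fam m J), F.Ω → γ J F} {c : ℕ → Fin m} {d : ℕ} {s A B : ℝ}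
  {sn : ℕ → ℝ → ℝ} {G : Set ℝ}

/-- The orders `j, j + 1, …`. -/
def odv (j : ℕ) {n : ℕ} (i : Fin n) : ℕ := j + i

/-- The same target several times. -/
theorem nic_const {k : Fin 1 → Fin m} {T : Fin 1 → ℝ → ℝ} (h : NiC S c d k sn T G s A B) (n : ℕ) :
    NiC S c d (fun _ : Fin n => k 0) sn (fun _ => T 0) G s A B where
  ne := h.ne
  pos := h.pos
  tm := h.tm
  rn := h.rn
  cl := h.cl
  ch := h.ch
  mn := h.mn
  att := fun _ => h.att 0
  mT := fun _ => h.mT 0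
  B1 := h.B1

/-- **One subclass** for the first `N` places of a chain, all orders. -/
theorem rj_le (hsd : SdI c y₀) (N : ℕ) (hne : S.Ne)
    (h : ∀ d < N, ∀ B : ℝ, B < 1 →
      NiC S c d (fun _ : Fin 1 => c d) sn (fun _ w => sn d w) G s A B) :
    ∃ S' : PCl m, S'.Ne ∧
      (∀ (τ : ℝ) (J : ℕ) (F : Fam m J) (A : F.Ω → Prop), S'.St τ J F A → S.St τ J F A) ∧
      ∀ᵐ g : ℝ, ∀ d < N, ∀ n j : ℕ, g ∈ G → A < g → g < 1 → (∀ l < d, sn l g < 1) →
        ∀ Sg : ℝ, 0 ≤ Sg →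
        SlB sn d (fun (_ : Fin n) w => sn d w) G g Sg →
        TgB (fun (_ : Fin n) w => sn d w) g Sg →
        LoB (fun i : Fin n => odv j i) (fun (_ : Fin n) w => sn d w) G g →
        RjG S' y₀ c d (fun _ : Fin n => c d) (fun i : Fin n => odv j i) (fun _ : Fin 0 => c d)
          (fun _ => 0) sn (fun _ w => sn d w) (fun _ w => sn d w) G g := by
  induction N with
  | zero => exact ⟨S, hne, fun _ _ _ _ h => h, Filter.Eventually.of_forall fun g d hd =>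
      absurd hd (Nat.not_lt_zero d)⟩
  | succ N ih =>
    obtain ⟨S₁, a1, a2, a3⟩ := ih fun d hd => h d (by omega)
    have hh := fun B hB => (h N (Nat.lt_succ_self N) B hB).sub a1 a2
    obtain ⟨S₂, b1, b2, b3⟩ := rj_all (ι₀ := ℕ × ℕ) (nn := fun x => x.1)
      (k := fun x _ => c N) (T := fun x _ w => sn N w)
      (kB := fun _ : Fin 0 => c N) (TB := fun _ w => sn N w) hsd
      (fun B hB => nic_const (hh B hB) 0) (fun x B hB => nic_const (hh B hB) x.1)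
      (fun x i => odv x.2 i) (fun _ => 0)
    refine ⟨S₂, b1, fun τ J F A h => a2 τ J F A (b2 τ J F A h), ?_⟩
    filter_upwards [a3, b3] with g ha hb d hd
    rcases Nat.lt_succ_iff_lt_or_eq.1 hd with h | rfl
    · exact fun n j e1 e2 e3 e4 Sg e5 e6 e7 e8 => (ha d h n j e1 e2 e3 e4 Sg e5 e6 e7 e8).sub b2
    · exact fun n j e1 e2 e3 e4 Sg e5 e6 e7 e8 => hb (n, j) e1 e2 e3 e4 Sg e5 e6 e7 e8
        fun η _ => ⟨1, one_pos, fun t _ _ w _ v _ _ _ _ i => i.elim0⟩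

end

end Pool.RJ28
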