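import Pool.Agent.H28.RJ.Lin
import Pool.Agent.H28.RV.Fix
import Pool.Agent.H30.LPJ.Ipj

/-!
# The number of the jets of the targets given the near path, at given windows

`up_fixJ`: given the near path and the record at the window `w` the jets of the targets have at most
`θ w o` bits, up to the defects. `lo_fixJ`: given the near path and the near jets of the second kind
over the charts of `w` and the record at `v` they have at least `θ v o` bits.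
-/

set_option autoImplicit false

namespace Pool.RJ28

open Finset Real MvPolynomial
open Pool.Agent.H49.Ent Pool.Agent.H32.Dense Pool.STK Pool.KA Pool.KSAT Pool.K2S Pool.PB Pool.S6C
  Pool.GEN Pool.RCD Pool.LA91 Pool.LP30 Pool.LPJ30
open Pool.OWN83 (TwoRelS TRelS)
open Pool.OWN68 (cl2_vg)
open Pool.RV28 (SdI yG ful_y)

variable {m : ℕ} {S : PCl m} {γ : ∀ J : ℕ, Fam m J → Type}
  {y₀ : ∀ (J : ℕ) (F : Fam m J), F.Ω → γ J F}

section

variable {α : ∀ J : ℕ, Fam m J → Type} {f : ∀ (J : ℕ) (F : Fam m J), F.Ω → α J F}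
  {γ' : ∀ J : ℕ, Fam m J → Type} {y : ∀ (J : ℕ) (F : Fam m J), F.Ω → γ' J F}
  {c : ℕ → Fin m} {d : ℕ} {s a b lam : ℝ} {wh : ℚ → ℝ} {sn : ℕ → ℝ → ℝ} {G : Set ℝ}
  {n : ℕ} {k : Fin n → Fin m} {od : Fin n → ℕ} {tl : Fin n → ℚ → ℝ} {P : Fin n → ℚ → ℝ}

/-- **The jets of the first kind given the near path** and the record at `o`. -/
theorem few_jtM (h : VCh S f y c d s a b wh sn G) (hsd : SdI c y₀)
    (hT : TgC S c d wh a b k tl) (hP : JtP wh a b od tl P) {w v o : ℚ} (hw : a < w)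
    (hwv : w ≤ v) (hvo : v ≤ o)
    (ho : (o : ℝ) < b) {nH nV lv : ℕ → ℝ} {σ₀ φ : ℝ} (hr : NrD wh sn d nH nV lv σ₀ φ w o)
    (hi : HiW sn d lv (σ₀ / 2) G (wh o)) (ht : TgN wh d lv σ₀ tl w o) :
    Few S (fun J F => ptr F J) (vg ((o : ℝ) + s)) y₀
      (paQ m c d (wh w) (fun l => sn l (wh w)) nH nV)
      (jtQ m c d k od wh tl (fun i => P i v) w) := by
  have hwv' : (w : ℝ) ≤ v := by exact_mod_cast hwv
  have hvo' : (v : ℝ) ≤ o := by exact_mod_cast hvo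
  have oa : a < o := by linarith
  obtain ⟨C₀, htm⟩ := h.tm
  have hg := (h.wg o oa ho)
  obtain ⟨u₁, rd, hrd, hch⟩ := h.ch.ch _ hg.1
  have e3 := h.wm w o hw (hwv.trans hvo) ho
  have hc := NrD.nrC hr e3 fun l hl => h.mn l hl w o hw (hwv.trans hvo) ho
  refine Few.up h.pos (fun J F => ⟨fun x => x, fun _ => rfl⟩)
    (fun J F => vg_mono hg.2 (by linarith [h.b1]) J F)
    (fun J F => ⟨fun x => x, fun _ => rfl⟩) (few_pi h.pos fun i => ?_)
  obtain ⟨rk, x1, x2⟩ := hT.att i o oa ho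
  have e1 := hP.mono i v o (by linarith) hvo ho
  have e2 := hP.le i o oa ho
  have e4 := tg_mono h hT i w o hw (hwv.trans hvo) ho
  refine few0_cut h.pos (exs_jet (N := P i v) (j := od i) x1 x2)
    (few0_jet htm hch.w0 hch.u0 (by linarith) _ _ _) ?_
  refine few_tgCj htm h.pos h.ch (fun J F => ⟨fun x => x, fun _ => rfl⟩) hsd.kn hg.1 hc hi le_rfl e3
    le_rfl ?_ fun l hl => ?_
  · rw [min_eq_right e4]
    linarith [ht.t1 i]
  · rw [min_eq_right e4]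
    linarith [ht.t2 i l hl]

end

section

variable {c : ℕ → Fin m} {d : ℕ} {s a b lam : ℝ} {wh : ℚ → ℝ} {sn : ℕ → ℝ → ℝ} {G : Set ℝ}
  {N lv₀ : ℕ → ℝ} {σ₁ : ℝ} {n n' : ℕ} {k : Fin n → Fin m} {od : Fin n → ℕ}
  {tl : Fin n → ℚ → ℝ} {P : Fin n → ℚ → ℝ}
  {kB : Fin n' → Fin m} {oB : Fin n' → ℕ} {tB : Fin n' → ℚ → ℝ} {DB : Fin n' → ℝ}

/-- **At most** `θ w o` bits given the near path and the record at `w`, up to the defects. -/
theorem up_fixJ (hsd : SdI c y₀)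
    (h : VCh S (fun J F => ptr F J) (yG ((range d).image c) y₀) c d s a b wh sn G)
    (hlam : 0 < lam) (hE : EdJ wh sn d N lv₀ σ₁ a b lam G)
    (hT : TgC S c d wh a b k tl) (hP : JtP wh a b od tl P)
    (hB : TgC S c d wh a b kB tB) (hD : BdB wh d lv₀ σ₁ a b lam oB tB DB) {θ₀ : ℚ → ℝ}
    {θ : ℚ → ℚ → ℝ} (hR : TRelS S (fun J F => ptr F J) (yG ((range d).image c) y₀) s
      (cdQ m c d wh sn N kB oB tB DB)
      (fun w o => jtQ m c d k od wh tl (fun i => P i o) w) a b lam θ₀ θ)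
    {w o : ℚ} (hw : a < w) (hwo : w ≤ o) (ho : (o : ℝ) < b)
    (hl : (o : ℝ) < w + lam) {nH nV lv : ℕ → ℝ} {σ₀ φ : ℝ}
    (hr : NrD wh sn d nH nV lv σ₀ φ w o) (hi : HiW sn d lv (σ₀ / 2) G (wh o))
    (ht : TgN wh d lv σ₀ tl w o) (hNV : ∀ l < d, nV l ≤ N l)
    (hgap : ∀ x, wh w ≤ x → x ≤ wh o → ∃ v' ∈ G, |v' - x| ≤ φ)
    (hfl : ∀ i < d, ∀ x ∈ G, wh w ≤ x → x ≤ wh o → |(sn i x - x) - (sn i (wh o) - wh o)| ≤ 2 * φ)
    {x' : ℝ} (hx' : x' ∈ G) (hox' : (o : ℝ) + s ≤ x') :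
    ∀ ε : ℝ, 0 < ε → ∃ κ : ℝ, 0 < κ ∧ ∃ e₀ : ℝ, 0 < e₀ ∧ ∀ K : ℕ, Bas S (fun J F A =>
      ∀ (V : Type) (z : F.Ω → V),
      Mx (fun J F => ptr F J) (vg ((w : ℝ) + s)) κ F A z →
      ∀ u pa, (jtQ m c d k od wh tl (fun i => P i o) w).P K e₀ J F A u →
      (paQ m c d (wh w) (fun l => sn l (wh w)) nH nV).P K e₀ J F A pa →
      CH (Pool.Agent.H49.Ent.cond F.p A True) u (fun ω => (pa ω, (z ω, y₀ J F ω))) ≤
        (θ w o + (θ₀ w - θ₀ o) +
            ∑ i ∈ range d, (sn i x' - sn i (wh o) + 8 * ((i : ℝ) + 1) * φ) * Real.log 2 + ε) * J) := by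
  intro cc hcc
  obtain ⟨ε, hε, hεc⟩ : ∃ ε : ℝ, 0 < ε ∧ 20 * ε = cc := ⟨cc / 20, by positivity, by ring⟩
  have hwo' : (w : ℝ) ≤ o := by exact_mod_cast hwo
  have oa : a < o := by linarith
  have wb : (w : ℝ) < b := by linarith
  have ob1 : (o : ℝ) + s < 1 := by linarith [h.b1]
  have gw := h.wg w hw wb
  have go := h.wg o oa ho
  have wo := h.wm w o hw hwo ho
  obtain ⟨C₀, htm⟩ := h.tm
  obtain ⟨u₂, rd, hrd, hch⟩ := h.ch.ch _ gw.1
  have hfp : ∀ (J : ℕ) (F : Fam m J), ∃ χ : PtT F → PtT F, ∀ ω, ptr F J ω = χ (ptr F J ω) :=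
    fun J F => ⟨fun x => x, fun _ => rfl⟩
  have hHt := hr.htN fun l hl => h.mn l hl w o hw hwo ho
  -- the numbers
  obtain ⟨k1, hk1, e1, he1, H1⟩ := NN.cond h.pos (hR.n w o hw hwo ho hl) (hR.n₀ w hw wb) ε hε
  obtain ⟨k2, hk2, e2, he2, H2⟩ := hR.n₀ w hw wb ε hε
  obtain ⟨k3, hk3, e3, he3, H3⟩ := hR.n₀ o oa ho ε hε
  -- the near path
  have q4 : Few S (fun J F => ptr F J) (vg ((w : ℝ) + s)) (yG ((range d).image c) y₀)
      (cdQ m c d wh sn N kB oB tB DB w) (paQ m c d (wh w) (fun l => sn l (wh w)) nH nV) :=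
    few_fstQ h.pos (few_pa h hlam hE.ed hw wb (nV := nV) hr.φ0 hHt hNV)
  obtain ⟨e4, he4, H4⟩ := q4.mx h.pos ε hε
  obtain ⟨e6, he6, H6⟩ := (few_jtM h hsd hT hP hw hwo le_rfl ho hr hi ht).mx h.pos ε hε
  -- the positions
  have q8 := FewC.up h.pos (f' := fun J F => ptr F J) (g' := vg ((w : ℝ) + s)) (y' := y₀)
    (fun J F => ⟨fun x => x, fun _ => rfl⟩)
    (fun J F => vg_mono gw.2 (by linarith) J F) (fun J F => ⟨fun x => x, fun _ => rfl⟩)
    (fewC_jPos (f := fun J F => ptr F J) (y := y₀) htm h.pos hfp hsd.kn hch hr.φ0 hHt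
      le_rfl)
  obtain ⟨e8, he8, H8⟩ := q8.mx h.pos ε hε
  have q9 := fewC_ht (f := fun J F => ptr F J) (y := y₀) htm h.pos h.ch hfp hsd.kn gw.1
    go.1 wo go.2 (by linarith) hr.φ0 hgap hfl (p := fun l => sn l (wh w)) (n := nH)
    (fun i _ => by linarith [hr.φ0]) (fun i hi => by linarith [hr.h i hi, hr.lv0 i hi, hr.σ0])
  obtain ⟨e9, he9, H9⟩ := q9.mx h.pos ε hε
  have H10 := ful_y hsd h.pos h.ch hx' hox' hε
  -- the condition at the last window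
  obtain ⟨e11, he11, H11⟩ := (h.up oa le_rfl ho (few_cd (kB := kB) h hE hD hw oa hwo le_rfl ho hl
    (by linarith) fun _ => le_rfl)).mx h.pos ε hε
  obtain ⟨e₀, he₀, l1, l2, l3, l4, l6, l8, l9, l11⟩ : ∃ e₀ : ℝ, 0 < e₀ ∧ e₀ ≤ e1 ∧
      e₀ ≤ e2 ∧ e₀ ≤ e3 ∧ e₀ ≤ e4 ∧ e₀ ≤ e6 ∧ e₀ ≤ e8 ∧ e₀ ≤ e9 ∧ e₀ ≤ e11 := by
    refine ⟨min (min (min e1 e2) (min e3 e4)) (min (min e6 e8) (min e9 e11)),
      by positivity, ?_, ?_, ?_, ?_, ?_, ?_, ?_, ?_⟩ <;> simp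
  obtain ⟨κ, hκ, m1, m2, m3, m4⟩ : ∃ κ : ℝ, 0 < κ ∧ κ ≤ k1 ∧ κ ≤ k2 ∧ κ ≤ k3 ∧ κ ≤ ε / 2 :=
    ⟨min (min k1 k2) (min k3 (ε / 2)), by positivity, by simp, by simp, by simp, by simp⟩
  obtain ⟨K₁, M₁, X1⟩ := exs_cd (N := N) h hB oB DB hw wb e₀ he₀
  obtain ⟨K₂, M₂, X2⟩ := exs_cd (N := N) h hB oB DB oa ho e₀ he₀
  refine ⟨κ, hκ, e₀, he₀, fun K => ?_⟩
  obtain ⟨L, hL0, hL1, hL2⟩ : ∃ L : ℕ, K ≤ L ∧ K₁ ≤ L ∧ K₂ ≤ L :=
    ⟨max K (max K₁ K₂), le_max_left _ _, (le_max_left _ _).trans (le_max_right _ _),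
      (le_max_right _ _).trans (le_max_right _ _)⟩
  obtain ⟨η, hη⟩ := h.rn o oa ho
  refine Bas.mono 0 (((((H1 L).and (H2 L)).and ((H3 L).and (H4 L))).and
    ((H6 L).and (H8 L))).and
    ((((H9 L).and H10).and (mx_ex h.pos hη κ hκ)).and
      (((H11 L).and (pos_bas h.pos)).and (X1.and X2)))) ?_
  rintro J - F A ⟨⟨⟨⟨H1, H2⟩, H3, H4⟩, H6, H8⟩, ⟨⟨H9, H10⟩, Vo, zo, hzo⟩, ⟨H11, hA⟩,
    ⟨e, he, -⟩, eo, heo, -⟩ V z hz u pa hu hpa
  have hcl := isLaw_cond F.isLaw hA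
  have h0 := hcl.nonneg
  have hJ0 : (0 : ℝ) ≤ J := Nat.cast_nonneg J
  have he := (cdQ m c d wh sn N kB oB tB DB w).mono hL1 le_rfl he
  have heo := (cdQ m c d wh sn N kB oB tB DB o).mono hL2 le_rfl heo
  have hu := (jtQ m c d k od wh tl (fun i => P i o) w).mono hL0 le_rfl hu
  have hpa := (paQ m c d (wh w) (fun l => sn l (wh w)) nH nV).mono hL0 le_rfl hpa
  have hht := htO_P hpa
  -- the record at the last window
  have hZ : Mx (fun J F => ptr F J) (vg ((o : ℝ) + s)) κ F A (fun ω => (z ω, zo ω)) :=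
    hz.join hA ⟨fun x => x, fun _ => rfl⟩ (vg_mono (by linarith) (by linarith) J F) hzo
  have r1 := (abs_le.1 (H1 V z (hz.le' m1) e u
    ((cdQ m c d wh sn N kB oB tB DB w).mono le_rfl l1 he)
    ((jtQ m c d k od wh tl (fun i => P i o) w).mono le_rfl l1 hu))).2
  have r2 := (abs_le.1 (H2 V z (hz.le' m2) e
    ((cdQ m c d wh sn N kB oB tB DB w).mono le_rfl l2 he))).2
  have r3 := (abs_le.1 (H3 _ _ (hZ.le' m3) eo
    ((cdQ m c d wh sn N kB oB tB DB o).mono le_rfl l3 heo))).1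
  have r4 := H4 V z (hz.le' m4) e pa ((cdQ m c d wh sn N kB oB tB DB w).mono le_rfl l4 he)
    ((paQ m c d _ _ nH nV).mono le_rfl l4 hpa)
  have r6 := H6 _ _ (hZ.le' m4) pa u ((paQ m c d _ _ nH nV).mono le_rfl l6 hpa)
    ((jtQ m c d k od wh tl (fun i => P i o) w).mono le_rfl l6 hu)
  have r8 := H8 V z (hz.le' m4) (fun ω => htO (pa ω)) (fun ω => fun l : Fin d => F.X J ω (c l))
    ((htQ m c d _ _ nH).mono le_rfl l8 hht) (fun ω _ => rfl)
  have r9 := H9 _ _ (hZ.le' m4) (fun _ => ()) (fun ω => htO (pa ω)) (fun ω _ => rfl)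
    ((htQ m c d _ _ nH).mono le_rfl l9 hht)
  have r10 := H10 _ _ hZ.1
  have r11 := H11 _ _ (hZ.le' m4) e eo ((cdQ m c d wh sn N kB oB tB DB w).mono le_rfl l11 he)
    ((cdQ m c d wh sn N kB oB tB DB o).mono le_rfl l11 heo)
  have r9' : CH (Pool.Agent.H49.Ent.cond F.p A True) (fun ω => htO (pa ω))
      (fun ω => ((z ω, zo ω), y₀ J F ω)) ≤
      CH (Pool.Agent.H49.Ent.cond F.p A True) (fun ω => htO (pa ω))
        (fun ω => ((), ((z ω, zo ω), y₀ J F ω))) :=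
    CH_mono_cond hcl.nonneg fun ω ω' _ _ hh => Prod.ext rfl hh
  have t1 : CH (Pool.Agent.H49.Ent.cond F.p A True) e
      (fun ω => (z ω, yG ((range d).image c) y₀ J F ω)) ≤ (θ₀ w + ε) * J := by linarith
  have t2 : (θ₀ o - ε) * J ≤ CH (Pool.Agent.H49.Ent.cond F.p A True) eo
      (fun ω => ((z ω, zo ω), yG ((range d).image c) y₀ J F ω)) := by linarith
  have hεJ : 0 ≤ ε * J := by positivity
  have key := ni_ent h0 (q := Pool.Agent.H49.Ent.cond F.p A True) (u := u)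
    (u₁ := fun _ => ())
    (e := e) (eo := eo) (pa := pa) (hh := fun ω => htO (pa ω))
    (x := fun ω => fun l : Fin d => F.X J ω (c l)) (y := yG ((range d).image c) y₀ J F)
    (w := y₀ J F)
    (z := z) (z' := fun ω => (z ω, u ω)) (zo := zo) (A₁ := (θ w o + ε) * J) (k := ε * J)
    (fun ω ω' _ _ hh => congrArg htO hh) ?_ ?_ ?_ r4 ?_ r6 ?_ r8 r10
    (r9'.trans r9) t1 t2 r11
  · have e1 : CH (Pool.Agent.H49.Ent.cond F.p A True) u
        (fun ω => (pa ω, ((z ω, u ω), y₀ J F ω))) = 0 :=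
      CH_eq_zero h0 fun ω ω' _ _ hh => by
        simp only [Prod.mk.injEq] at hh
        exact hh.2.1.2
    have e2 : CH (Pool.Agent.H49.Ent.cond F.p A True) u
        (fun ω => (pa ω, (z ω, y₀ J F ω))) ≤ CH (Pool.Agent.H49.Ent.cond F.p A True) u
        (fun ω => ((), (pa ω, (z ω, y₀ J F ω)))) :=
      CH_mono_cond h0 fun ω ω' _ _ hh => Prod.ext rfl hh
    rw [e1] at key
    refine e2.trans (key.trans (le_of_sub_nonneg ?_))
    have s1 : (∑ i ∈ range d, (sn i x' - sn i (wh o) + 8 * ((i : ℝ) + 1) * φ) * Real.log 2) * J =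
        (∑ i ∈ range d, (1 - nH i) * Real.log 2) * J -
        ∑ i ∈ range d, (1 - sn i x') * Real.log 2 * J +
        (∑ i ∈ range d, (nH i - sn i (wh o) + 8 * ((i : ℝ) + 1) * φ) * Real.log 2) * J := by
      simp only [Finset.sum_mul]
      rw [← Finset.sum_sub_distrib, ← Finset.sum_add_distrib]
      refine Finset.sum_congr rfl fun i _ => ?_
      ring
    have s3 : cc * J = 20 * (ε * J) := by rw [← hεc]; ring
    generalize (∑ i ∈ range d, (sn i x' - sn i (wh o) + 8 * ((i : ℝ) + 1) * φ) * Real.log 2) = T at *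
    generalize (∑ i ∈ range d, (1 - nH i) * Real.log 2) = T₁ at *
    generalize (∑ i ∈ range d, (1 - sn i x') * Real.log 2 * J) = T₂ at *
    generalize (∑ i ∈ range d, (nH i - sn i (wh o) + 8 * ((i : ℝ) + 1) * φ) * Real.log 2) = T₃ at *
    have s4 : (θ w o + (θ₀ w - θ₀ o) + T + cc) * J =
      θ w o * J + θ₀ w * J - θ₀ o * J + T * J + cc * J := by ring
    have s5 : (θ w o + ε) * J = θ w o * J + ε * J := by ring
    have s6 : (T₁ + ε) * J = T₁ * J + ε * J := by ring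
    have s7 : (T₃ + ε) * J = T₃ * J + ε * J := by ring
    have s8 : (θ₀ w + ε) * J = θ₀ w * J + ε * J := by ring
    have s9 : (θ₀ o - ε) * J = θ₀ o * J - ε * J := by ring
    rw [s4, s5, s6, s7, s8, s9, s1, s3]
    linarith
  · intro ω ω' _ _ hh
    have h1 := Prod.ext_iff.mp hh
    refine Prod.ext (funext fun i => ?_) h1.2
    show (if i ∈ (range d).image c then F.X J ω i else 0) =
      if i ∈ (range d).image c then F.X J ω' i else 0
    split_ifs with hi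
    · obtain ⟨l, hl, rfl⟩ := mem_image.1 hi
      exact congrFun h1.1 ⟨l, mem_range.1 hl⟩
    · rfl
  · intro ω ω' _ _ hh
    have h1 := Prod.ext_iff.mp hh
    refine Prod.ext (funext fun l => ?_) h1.2
    have h2 := congrFun h1.1 (c l)
    have h3 : (if c l ∈ (range d).image c then F.X J ω (c l) else 0) =
      if c l ∈ (range d).image c then F.X J ω' (c l) else 0 := h2
    rw [if_pos (mem_image_of_mem c (mem_range.2 l.2)),
      if_pos (mem_image_of_mem c (mem_range.2 l.2))] at h3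
    exact h3
  · have e1 : CH (Pool.Agent.H49.Ent.cond F.p A True) u
        (fun ω => ((), (e ω, (z ω, yG ((range d).image c) y₀ J F ω)))) ≤
        CH (Pool.Agent.H49.Ent.cond F.p A True) u
        (fun ω => (e ω, (z ω, yG ((range d).image c) y₀ J F ω))) :=
      CH_mono_cond h0 fun ω ω' _ _ hh => (Prod.ext_iff.mp hh).2
    have e2 := CH_nonneg h0 u
      (fun ω => (e ω, ((z ω, u ω), yG ((range d).image c) y₀ J F ω)))
    have e3 : (θ w o + ε) * J = (θ₀ w + θ w o - θ₀ w) * J + ε * J := by ring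
    linarith
  · refine le_trans (CH_mono_cond h0 fun ω ω' _ _ hh => ?_) r4
    simp only [Prod.mk.injEq] at hh ⊢
    exact ⟨hh.1, hh.2.1.1, hh.2.2⟩
  · have e1 : CH (Pool.Agent.H49.Ent.cond F.p A True) (fun _ => ())
        (fun ω => (pa ω, ((z ω, zo ω), y₀ J F ω))) = 0 :=
      CH_eq_zero h0 fun ω ω' _ _ _ => rfl
    rw [e1]
    exact hεJ

/-- **At least** `θ v o` bits given the near path and the near jets of the second kind over the charts
of `w` and the record at `v`. -/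
theorem lo_fixJ (h : VCh S (fun J F => ptr F J) (yG ((range d).image c) y₀) c d s a b wh sn G)
    (hlam : 0 < lam) (hE : EdJ wh sn d N lv₀ σ₁ a b lam G)
    (hT : TgC S c d wh a b k tl) (hS : TgS wh d lv₀ σ₁ a b lam tl) (hP : JtP wh a b od tl P)
    (hB : TgC S c d wh a b kB tB) (hD : BdB wh d lv₀ σ₁ a b lam oB tB DB) {θ₀ : ℚ → ℝ}
    {θ : ℚ → ℚ → ℝ} (hR : TRelS S (fun J F => ptr F J) (yG ((range d).image c) y₀) s
      (cdQ m c d wh sn N kB oB tB DB)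
      (fun w o => jtQ m c d k od wh tl (fun i => P i o) w) a b lam θ₀ θ)
    {w v o : ℚ} (hw : a < w) (hwv : w ≤ v) (hvo : v ≤ o) (ho : (o : ℝ) < b)
    (hl : (o : ℝ) < w + lam) {nH nV lv : ℕ → ℝ} {σ₀ φ : ℝ} {nB : Fin n' → ℝ}
    (hr : NrD wh sn d nH nV lv σ₀ φ w o) (hNV : ∀ l < d, nV l ≤ N l) (hNB : ∀ i, nB i ≤ DB i) :
    ∀ ε : ℝ, 0 < ε → ∃ κ : ℝ, 0 < κ ∧ ∃ e₀ : ℝ, 0 < e₀ ∧ ∀ K : ℕ, Bas S (fun J F A =>
      ∀ (V : Type) (z : F.Ω → V),
      Mx (fun J F => ptr F J) (vg ((v : ℝ) + s)) κ F A z →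
      ∀ u q pa, (jtQ m c d k od wh tl (fun i => P i o) w).P K e₀ J F A u →
      (jtQ m c d kB oB wh tB nB w).P K e₀ J F A q →
      (paQ m c d (wh w) (fun l => sn l (wh w)) nH nV).P K e₀ J F A pa →
      (θ v o - ε) * J ≤
        CH (Pool.Agent.H49.Ent.cond F.p A True) u
          (fun ω => ((pa ω, q ω), (z ω, y₀ J F ω)))) := by
  intro cc hcc
  obtain ⟨ε, hε, hεc⟩ : ∃ ε : ℝ, 0 < ε ∧ 2 * ε = cc := ⟨cc / 2, by positivity, by ring⟩
  have hwv' : (w : ℝ) ≤ v := by exact_mod_cast hwv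
  have hvo' : (v : ℝ) ≤ o := by exact_mod_cast hvo
  have va : a < v := by linarith
  have vb : (v : ℝ) < b := by linarith
  have wb : (w : ℝ) < b := by linarith
  have hrel := rel_J h hlam hE hT hS hP hB hD
  have hHt := hr.htN fun l hl => h.mn l hl w o hw (hwv.trans hvo) ho
  obtain ⟨k1, hk1, e1, he1, H1⟩ := NN.late h.pos (hR.n₀ v va vb)
    (hR.n v o va hvo ho (by linarith)) (hrel.exs₀ v va vb) (hrel.exs v o va hvo ho (by linarith))
    (hrel.tr w v hw hwv vb (by linarith)) (hrel.chg w v o hw hwv hvo ho hl) ε hε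
  have q5 := Few.up h.pos (f' := fun J F => ptr F J) (g' := vg ((v : ℝ) + s))
    (y' := yG ((range d).image c) y₀) (fun J F => ⟨fun x => x, fun _ => rfl⟩)
    (fun J F => vg_mono (by linarith) (by linarith [h.b1]) J F)
    (fun J F => ⟨fun x => x, fun _ => rfl⟩)
    (few_cdB (kB := kB) h hlam hE hD hw wb (nV := nV) (nB := nB) hr.φ0 hHt hNV hNB)
  obtain ⟨e5, he5, H5⟩ := q5.mx h.pos ε hε
  obtain ⟨e₀, he₀, l1, l5⟩ : ∃ e₀ : ℝ, 0 < e₀ ∧ e₀ ≤ e1 ∧ e₀ ≤ e5 :=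
    ⟨min e1 e5, by positivity, by simp, by simp⟩
  obtain ⟨κ, hκ, m1, m4⟩ : ∃ κ : ℝ, 0 < κ ∧ κ ≤ k1 ∧ κ ≤ ε / 2 :=
    ⟨min k1 (ε / 2), by positivity, by simp, by simp⟩
  obtain ⟨K₁, M₁, X1⟩ := exs_cd (N := N) h hB oB DB hw wb e₀ he₀
  refine ⟨κ, hκ, e₀, he₀, fun K => ?_⟩
  refine Bas.mono 0 (((H1 (max K K₁)).and (H5 (max K K₁))).and ((pos_bas h.pos).and X1)) ?_
  rintro J - F A ⟨⟨H1, H5⟩, hA, e, he, -⟩ V z hz u q pa hu hq hpa
  have h0 := (isLaw_cond F.isLaw hA).nonneg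
  have he := (cdQ m c d wh sn N kB oB tB DB w).mono (le_max_right K K₁) le_rfl he
  have hu := (jtQ m c d k od wh tl (fun i => P i o) w).mono (le_max_left K K₁) le_rfl hu
  have hq := (jtQ m c d kB oB wh tB nB w).mono (le_max_left K K₁) le_rfl hq
  have hpa := (paQ m c d (wh w) (fun l => sn l (wh w)) nH nV).mono (le_max_left K K₁) le_rfl hpa
  have r1 := H1 V z (hz.le' m1) e u ((cdQ m c d wh sn N kB oB tB DB w).mono le_rfl l1 he)
    ((jtQ m c d k od wh tl (fun i => P i o) w).mono le_rfl l1 hu)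
  have r5 := H5 V z (hz.le' m4) e (fun ω => (pa ω, q ω))
    ((cdQ m c d wh sn N kB oB tB DB w).mono le_rfl l5 he)
    ⟨(paQ m c d _ _ nH nV).mono le_rfl l5 hpa, (jtQ m c d kB oB wh tB nB w).mono le_rfl l5 hq⟩
  have s9 := CH_le_add h0 u (fun ω => (pa ω, q ω))
    (fun ω => (e ω, (z ω, yG ((range d).image c) y₀ J F ω)))
  have s9' : CH (Pool.Agent.H49.Ent.cond F.p A True) u
      (fun ω => ((pa ω, q ω), (e ω, (z ω, yG ((range d).image c) y₀ J F ω)))) ≤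
      CH (Pool.Agent.H49.Ent.cond F.p A True) u
        (fun ω => ((pa ω, q ω), (z ω, y₀ J F ω))) := by
    refine CH_mono_cond h0 fun ω ω' _ _ hh => ?_
    simp only [Prod.mk.injEq] at hh ⊢
    exact ⟨hh.1, hh.2.2.1, (Prod.ext_iff.mp hh.2.2.2).2⟩
  have e1 : (θ v o - cc) * J = (θ₀ v + θ v o - θ₀ v - ε) * J - ε * J := by
    rw [← hεc]
    ring
  linarith

end

end Pool.RJ28
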