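import Pool.Agent.H28.RV.Lin
import Pool.Agent.H30.LPJ.Ndj

/-!
# The rate of the jets of the targets: numbers

`GdRJ`: the data for `e` and the rate `φ` at `g`, an interval of length at most `ρ`: the numbers of
the targets are `φ (o - w)`, the number of the condition is constant, up to `e r` in the boxes of size
`r`. `ndrJ_ae`: at almost every point with good data of arbitrarily small intervals.
-/

set_option autoImplicit false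

namespace Pool.RJ28

open Finset Real MvPolynomial MeasureTheory Set
open Pool.Agent.H49.Ent Pool.Agent.H32.Dense Pool.STK Pool.KA Pool.KSAT Pool.K2S Pool.PB Pool.S6C
  Pool.GEN Pool.RCD Pool.LA91 Pool.LP30 Pool.LPJ30
open Pool.OWN83 (TwoRelS TRelS rel_clsS)
open Pool.RV28 (lin_ae2)

variable {m : ℕ} {α γ : ∀ J : ℕ, Fam m J → Type}
  {f : ∀ (J : ℕ) (F : Fam m J), F.Ω → α J F} {y : ∀ (J : ℕ) (F : Fam m J), F.Ω → γ J F}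
  {S : PCl m} {c : ℕ → Fin m} {d : ℕ} {s a b : ℝ} {wh : ℚ → ℝ} {sn : ℕ → ℝ → ℝ} {G : Set ℝ}
  {n n' : ℕ} {k : Fin n → Fin m} {od : Fin n → ℕ} {tl : Fin n → ℚ → ℝ}
  {kB : Fin n' → Fin m} {oB : Fin n' → ℕ} {tB : Fin n' → ℚ → ℝ}

/-- **The data for `e`** at `g`, with the rate `φ`, an interval of length at most `ρ`. -/
structure GdRJ {n n' : ℕ} (wh : ℚ → ℝ) (sn : ℕ → ℝ → ℝ) (d : ℕ) (G : Set ℝ) (tl : Fin n → ℚ → ℝ)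
    (oB : Fin n' → ℕ) (tB : Fin n' → ℚ → ℝ) (a b : ℝ)
    (θ₀ : EIxJ d n' → ℚ → ℝ) (θ : EIxJ d n' → ℚ → ℚ → ℝ) (g e ρ φ : ℝ) (i : EIxJ d n') : Prop where
  adm : AdmJ wh sn d G tl oB tB a b i
  ia : i.a < g
  ib : g < i.b
  il : (i.b : ℝ) - i.a ≤ ρ
  φ0 : 0 ≤ φ
  r : ∃ r₀ : ℝ, 0 < r₀ ∧ ∀ r : ℝ, 0 < r → r < r₀ →
    (∀ w o : ℚ, g - r ≤ w → w ≤ o → (o : ℝ) ≤ g + r → |θ i w o - φ * (o - w)| ≤ e * r) ∧
    ∀ w v : ℚ, g - r ≤ w → w ≤ v → (v : ℝ) ≤ g + r → θ₀ i w - θ₀ i v ≤ e * r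

/-- **Data for all `e`, with the rate**, at almost every point. -/
theorem ndrJ_ae (h : VCh S f y c d s a b wh sn G) (hT : TgC S c d wh a b k tl)
    (hB : TgC S c d wh a b kB tB)
    {θ₀ : EIxJ d n' → ℚ → ℝ} {θ : EIxJ d n' → ℚ → ℚ → ℝ}
    (hN : NjN S f y c d s a b wh sn G k od tl kB oB tB θ₀ θ) :
    ∀ᵐ g : ℝ, CrJ wh sn d G tl oB tB a b g → ∀ e : ℝ, 0 < e → ∀ ρ : ℝ, 0 < ρ →
      ∃ (φ : ℝ) (i : EIxJ d n'), GdRJ wh sn d G tl oB tB a b θ₀ θ g e ρ φ i := by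
  have hla : ∀ᵐ g : ℝ, ∀ i : {i : EIxJ d n' // AdmJ wh sn d G tl oB tB a b i},
      g ∈ Ioo (i.1.a : ℝ) i.1.b → ∃ φ : ℝ, 0 ≤ φ ∧ ∀ e : ℝ, 0 < e →
      ∃ r₀ : ℝ, 0 < r₀ ∧ ∀ r : ℝ, 0 < r → r < r₀ →
      ∀ w o : ℚ, g - r ≤ w → w ≤ o → (o : ℝ) ≤ g + r →
        |θ i.1 w o - φ * (o - w)| ≤ e * r := by
    rw [ae_all_iff]
    intro i
    have hc := h.cut i.2.ha i.2.hb
    obtain ⟨h0, h2⟩ := TRelS.super hc.ne hc.pos hc.b1.le hc.rn (i.2.rel h hT hB) (hN i.1 i.2)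
    exact lin_ae2 (by exact_mod_cast i.2.lam0) h0 h2
  filter_upwards [hla, ndj_ae h hT hB hN] with g h1 h2 hg e he ρ hρ
  obtain ⟨i, i1, i2, i3, i4, r₁, hr₁, H1⟩ := h2 hg e he ρ hρ
  obtain ⟨φ, hφ, H2⟩ := h1 ⟨i, i1⟩ ⟨i2, i3⟩
  obtain ⟨r₂, hr₂, H2⟩ := H2 e he
  exact ⟨φ, i, i1, i2, i3, i4, hφ, min r₁ r₂, lt_min hr₁ hr₂, fun r hr hrr =>
    ⟨H2 r hr (hrr.trans_le (min_le_right _ _)), (H1 r hr (hrr.trans_le (min_le_left _ _))).2⟩⟩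

end Pool.RJ28
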