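import Pool.Agent.H28.RV.PkU
import Pool.Agent.H28.RJ.All

/-!
# The rates of the jets of a place as a property of one window

`VrJ`: the property of a window (index: the place and the top order `K`): for all `1 ≤ j` one rate `φ j`
of the vector of the jets of the orders `j, …, K`, for all errors. `aePG_vj`: it holds at almost every
window, in a subclass; `her_vj`: it is hereditary.
-/

set_option autoImplicit false

namespace Pool.RJ28

open Finset Real MvPolynomial MeasureTheory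
open Pool.Agent.H49.Ent Pool.Agent.H32.Dense Pool.STK Pool.KA Pool.KSAT Pool.K2S Pool.PB Pool.S6C
  Pool.GEN Pool.RCD Pool.LA91 Pool.LP30 Pool.LPJ30 Pool.PKG Pool.CHT Pool.GRW
open Pool.OWN83 (TwoRelS TRelS ae_shift rel_clsS)
open Pool.AVG96 (fl fl_mem fl_mono le_fl whG gap_ae)
open Pool.TOP (TopS)
open Pool.RV28 (SdI yG vchG der_box fin_ev sdI_T slope_ge)

section

variable {m : ℕ} {S : PCl m} {γ : ∀ J : ℕ, Fam m J → Type}
  {y₀ : ∀ (J : ℕ) (F : Fam m J), F.Ω → γ J F} {c : ℕ → Fin m} {d : ℕ}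
  {sn : ℕ → ℝ → ℝ} {G : Set ℝ} {n : ℕ} {k : Fin n → Fin m} {od : Fin n → ℕ} {T : Fin n → ℝ → ℝ}

/-- **The levels near a point**, from the derivatives, any number of targets. -/
theorem slB_ofn {T : ℝ → ℝ} {g s Sg : ℝ} (n : ℕ)
    (hd : ∀ l < d, HasDerivAt (fun x => sn l x) 1 g) (hT : HasDerivAt T s g) (hs : s ≤ Sg)
    (gap : ∀ η : ℝ, 0 < η → ∃ ρ : ℝ, 0 < ρ ∧ ∀ t : ℝ, 0 < t → t < ρ → ∀ x : ℝ, g - t ≤ x →
      x ≤ g + t → ∃ u ∈ G, x - η * t ≤ u ∧ u ≤ x) :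
    SlB sn d (fun (_ : Fin n) w => T w) G g Sg := by
  intro η hη
  obtain ⟨ρ, h1, H1⟩ := Pool.RV28.slB_of hd hT hs gap η hη
  exact ⟨ρ, h1, fun t ht htρ => ⟨(H1 t ht htρ).sl, fun w hw v hv a b c _ =>
    (H1 t ht htρ).tg w hw v hv a b c 0, (H1 t ht htρ).gap⟩⟩

theorem tgB_ofn {T : ℝ → ℝ} {g s Sg : ℝ} (n : ℕ) (hT : HasDerivAt T s g) (h1 : 1 ≤ s)
    (hs : s ≤ Sg) : TgB (fun (_ : Fin n) w => T w) g Sg := by
  intro η hη
  obtain ⟨ρ, h1, H1⟩ := Pool.RV28.tgB_of hT h1 hs η hη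
  exact ⟨ρ, h1, fun t ht htρ _ w v a b c => H1 t ht htρ 0 w v a b c⟩

/-- The natural digits of the orders below the slope increase. -/
theorem loB_ofn {T : ℝ → ℝ} {g s : ℝ} {n j : ℕ} (hT : HasDerivAt T s g)
    (hs : ∀ i : Fin n, (odv j i : ℝ) < s) :
    LoB (fun i : Fin n => odv j i) (fun (_ : Fin n) w => T w) G g := by
  refine lo_of fun i => Or.inr ⟨s - odv j i, by linarith [hs i], fun η hη => ?_⟩
  obtain ⟨ρ, h1, H1⟩ := der_box hT hη
  refine ⟨ρ, h1, fun t ht htρ w _ v _ a b c => ?_⟩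
  have h2 := (abs_le.1 (H1 t ht htρ w v a b c)).1
  have h3 : (odv j i : ℝ) + (s - odv j i) = s := by ring
  rw [h3]
  linarith

/-- **No jets: the rate zero.** -/
theorem rvU_empty (hn : n = 0)
    (hpos : ∀ (τ : ℝ) (J : ℕ) (F : Fam m J) (A : F.Ω → Prop), S.St τ J F A → 0 < Pe F.p A)
    {g : ℝ} : RvU S y₀ c d k od sn T G g 0 := by
  subst hn
  refine fun e he => ⟨1, one_pos, 1, one_pos, fun r hr _ b _ x o _ _ _ _ nH nV lv _ _ =>
    ⟨1, one_pos, 1, one_pos, fun K => Bas.mono 0 (pos_bas hpos) ?_⟩⟩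
  rintro J - F A hA V z - u pa - -
  have h0 := (isLaw_cond F.isLaw hA).nonneg
  have h1 : CH (Pool.Agent.H49.Ent.cond F.p A True) u (fun ω => (pa ω, (z ω, y₀ J F ω))) = 0 :=
    CH_eq_zero h0 fun ω ω' _ _ _ => funext fun i => i.elim0
  have h2 : 0 ≤ e * r * (J : ℝ) := by positivity
  rw [h1, zero_mul, zero_mul, sub_zero, abs_zero]
  exact h2

/-- **The rate of a part of the jets** is at most the rate of the jets. -/
theorem rvU_mono (hne : S.Ne)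
    (hpos : ∀ (τ : ℝ) (J : ℕ) (F : Fam m J) (A : F.Ω → Prop), S.St τ J F A → 0 < Pe F.p A)
    {g Sg φ₁ φ₂ : ℝ} {n₂ : ℕ} (σ : Fin n₂ → Fin n)
    (hη : ∀ w : ℚ, ∃ η, RNum S (fun J F => ptr F J) (vg (w : ℝ)) η)
    (hW : ChG S c d sn G) (hg : g ∈ G)
    (hat : ∀ i, ∀ b ∈ G, ∃ rk, 0 ≤ rk ∧ Att S ((range d).image c) (k i) b (T i b) rk)
    (hSg : 0 ≤ Sg) (hT : TgB T g Sg) (h1 : RvU S y₀ c d k od sn T G g φ₁)
    (h2 : RvU S y₀ c d (fun i => k (σ i)) (fun i => od (σ i)) sn (fun i => T (σ i)) G g φ₂) :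
    φ₂ ≤ φ₁ := by
  by_contra hlt
  rw [not_le] at hlt
  obtain ⟨e, he, he4, he1⟩ : ∃ e : ℝ, 0 < e ∧ 8 * e ≤ φ₂ - φ₁ ∧ e ≤ 1 :=
    ⟨min 1 ((φ₂ - φ₁) / 8), lt_min one_pos (by linarith), by
      linarith [min_le_right 1 ((φ₂ - φ₁) / 8)], min_le_left _ _⟩
  obtain ⟨κ₁, hκ₁, r₁, hr₁, H1⟩ := h1 e he
  obtain ⟨κ₂, hκ₂, r₂, hr₂, H2⟩ := h2 e he
  obtain ⟨ρ₁, hρ₁, hT⟩ := hT 1 one_pos
  obtain ⟨C, hC⟩ : ∃ C : ℝ, C = ((Sg + 1) + 4 * 2) * 4 ^ d + 4 := ⟨_, rfl⟩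
  have hC0 : 0 < C := by
    rw [hC]
    positivity
  obtain ⟨r, hr, s1, s2, s3, s4⟩ : ∃ r : ℝ, 0 < r ∧ r < ρ₁ ∧ r < r₁ ∧ r < r₂ ∧
      C * r ≤ min κ₁ κ₂ := by
    have hm : 0 < min (min ρ₁ (min r₁ r₂)) (min κ₁ κ₂ / C) :=
      lt_min (lt_min hρ₁ (lt_min hr₁ hr₂)) (div_pos (lt_min hκ₁ hκ₂) hC0)
    refine ⟨min (min ρ₁ (min r₁ r₂)) (min κ₁ κ₂ / C) / 2, by positivity, ?_, ?_, ?_, ?_⟩
    · exact (half_lt_self hm).trans_le ((min_le_left _ _).trans (min_le_left _ _))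
    · exact (half_lt_self hm).trans_le ((min_le_left _ _).trans ((min_le_right _ _).trans
        (min_le_left _ _)))
    · exact (half_lt_self hm).trans_le ((min_le_left _ _).trans ((min_le_right _ _).trans
        (min_le_right _ _)))
    · have h1 := (half_lt_self hm).le.trans (min_le_right _ _)
      rw [le_div_iff₀ hC0] at h1
      linarith
  obtain ⟨x, x1, x2⟩ := exists_rat_btwn (show g < g + r / 2 by linarith)
  have hN : ∀ κ : ℝ, C * r ≤ κ → NrJ sn d T (fun i : Fin 0 => (i.elim0 : ℕ))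
      (fun i : Fin 0 => (i.elim0 : ℝ → ℝ))
      (fun l => sn l g + dgj ((Sg + 1) * r) (2 * r) d l + 2 * (2 * r))
      (fun l => sn l g + dgj ((Sg + 1) * r) (2 * r) d l + 2 * (2 * r) - g)
      (dgj ((Sg + 1) * r) (2 * r) d) (fun i => (i.elim0 : ℝ → ℝ) g - (i.elim0 : ℕ) * (g + r)) g
      (g + r) (e * r) κ := by
    intro κ hκ
    refine nrJ_dgj (by positivity) (by linarith) (by linarith) (by linarith) ?_ (fun i' => ?_) ?_
    · have := mul_le_mul_of_nonneg_right he1 hr.le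
      linarith
    · have := (hT r hr s1 i' g (g + r) (by linarith) (by linarith) le_rfl).2
      linarith
    · have h2 : C * r = ((Sg + 1) * r + 4 * (2 * r)) * 4 ^ d + 2 * (2 * r) := by
        rw [hC]
        ring
      linarith
  have n1 := hN κ₁ (s4.trans (min_le_left _ _))
  have n2 := hN κ₂ (s4.trans (min_le_right _ _))
  have hgp : ∀ l < d, ∀ l' < l, 3 * (dgj ((Sg + 1) * r) (2 * r) d l + e * r) ≤
      dgj ((Sg + 1) * r) (2 * r) d l' := n1.g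
  have w1 := H1 r hr s2 g hg x (g + r) (by linarith) x1.le (by linarith) le_rfl _ _ _ n1.nr hgp
  have w2 := H2 r hr s3 g hg x (g + r) (by linarith) x1.le (by linarith) le_rfl _ _ _
    { lv0 := n2.nr.lv0
      h := n2.nr.h
      v := n2.nr.v
      s := n2.nr.s
      sh := n2.nr.sh
      sv := n2.nr.sv
      t := fun i l hl => n2.nr.t (σ i) l hl
      kh := n2.nr.kh
      kv := n2.nr.kv } hgp
  have h3 := rtV_cmp hne hpos σ (hη x) hW hg (fun i => hat i g hg) w1 w2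
  have h4 : r / 2 ≤ g + r - x := by linarith
  have h5 : 8 * e * (g + r - x) ≤ (φ₂ - φ₁) * (g + r - x) :=
    mul_le_mul_of_nonneg_right he4 (by linarith)
  have h6 : 8 * e * (r / 2) ≤ 8 * e * (g + r - x) :=
    mul_le_mul_of_nonneg_left h4 (by linarith)
  have h7 : 0 < e * r := mul_pos he hr
  linarith

end

/-- **The rates of the jets of the place** `p.1` over the places below it, given the near path, in the
boxes around the window `x`: for all `1 ≤ j` one rate `φ j` of the vector of the jets of the orders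
`j, …, p.2`, for all errors. -/
structure VrJ {n : ℕ} (p : ℕ × ℕ) (k₀ : ℕ) (S : PCl n)
    (P : List (Fin n) × Fin n → ℝ → ℝ → ℝ) (θ : ℝ) (c : ℕ → Fin n) (Pt : ℝ → ℝ → ℝ)
    (r : ℝ → ℝ) (L T : ℕ → ℝ → ℝ → ℝ) (κ : ℕ → Kg) (G : Set ℝ) (x : ℝ) : Prop where
  /-- The numbers of the records exist. -/
  rn : ∃ η : ℚ → ℝ, ∀ w : ℚ, RNum S (fun J F => ptr F J) (vg (w : ℝ)) (η w)
  /-- The chains at the windows of `G`. -/
  ch : ∀ d < n, ChG S c d (fun l w => L l w w) G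
  /-- The windows of `G` near `x`. -/
  gap : ∀ η : ℝ, 0 < η → ∃ ρ : ℝ, 0 < ρ ∧ ∀ t : ℝ, 0 < t → t < ρ → ∀ y : ℝ, x - t ≤ y →
    y ≤ x + t → ∃ u ∈ G, y - η * t ≤ u ∧ u ≤ y
  /-- The rates. -/
  rt : p.1 + 1 < n → (∀ l < p.1, κ l = .one) → ∀ Sr : ℝ,
    HasDerivAt (fun a => L p.1 a a) Sr x → (p.2 : ℝ) < Sr → ∃ φ : ℕ → ℝ, (∀ j, 0 ≤ φ j) ∧
    (∀ j, 1 ≤ j → φ (j + 1) ≤ φ j) ∧ (∀ j, p.2 < j → φ j = 0) ∧ ∀ j, 1 ≤ j →
    RvU S (fun (_ : ℕ) (F : Fam n _) => F.T) c p.1 (fun _ : Fin (p.2 + 1 - j) => c p.1)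
      (fun i => odv j i) (fun l w => L l w w) (fun _ w => L p.1 w w) G x (φ j)

/-- The property passes to subclasses. -/
theorem VrJ.sub {n : ℕ} {p : ℕ × ℕ} {k₀ : ℕ} {S S' : PCl n}
    {P : List (Fin n) × Fin n → ℝ → ℝ → ℝ} {θ : ℝ} {c : ℕ → Fin n} {Pt : ℝ → ℝ → ℝ}
    {r : ℝ → ℝ} {L T : ℕ → ℝ → ℝ → ℝ} {κ : ℕ → Kg} {G : Set ℝ} {x : ℝ}
    (hs : ∀ (τ : ℝ) (J : ℕ) (F : Fam n J) (A : F.Ω → Prop), S'.St τ J F A → S.St τ J F A)
    (h : VrJ p k₀ S P θ c Pt r L T κ G x) : VrJ p k₀ S' P θ c Pt r L T κ G x where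
  rn := by
    obtain ⟨η, hη⟩ := h.rn
    exact ⟨η, fun w => (hη w).sub hs⟩
  ch := fun d hd => (h.ch d hd).sub hs
  gap := h.gap
  rt := fun e1 e2 Sr e3 e4 => by
    obtain ⟨φ, hφ, hm, h0, H⟩ := h.rt e1 e2 Sr e3 e4
    exact ⟨φ, hφ, hm, h0, fun j hj => (H j hj).sub hs⟩

theorem her_vj (n : ℕ) : HerQ (VrJ : PropG n (ℕ × ℕ)) :=
  fun _ _ _ _ _ _ _ _ _ _ _ _ _ _ hs h => h.sub hs

/-- **The property `VrJ` holds at almost every window**, in a subclass. -/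
theorem aePG_vj (n : ℕ) : AePG n (VrJ : PropG n (ℕ × ℕ)) := by
  classical
  intro hn S P r P' Λ PB PQ H hTop hF o G hG hGs
  obtain ⟨al, g₀, s, d', e', K₁, N₁, hal, hg₀, hC⟩ := H.cl
  have htm : TmC S 6 := Pool.GEN.N83.clx_tmc hC
  have hM : Bas S (fun J F A => (cnt F.p (ptr F J) A : ℝ) ≤ Real.exp ((4 * n + 1) * J)) :=
    Bas.mono 0 hC.cnt fun J _ F A h => h J le_rfl
  have hW : ∀ d < n, ChG S (cc hn o.1.1) d (fun l w => LvL hn P P' o l w w) G :=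
    fun d hd => gs_chG H.toPk hTop hF hGs (by omega)
  obtain ⟨S₁, a1, a2, η, hη⟩ := rnum_ptr hC.ne hC.pos hM
  have hatt : ∀ d < n - 1, ∀ w ∈ G, ∃ rk, 0 ≤ rk ∧
      Att S₁ ((range d).image (cc hn o.1.1)) (cc hn o.1.1 d) w (LvL hn P P' o d w w) rk := by
    intro d hd w hw
    obtain ⟨u₁, rd, h1, h2⟩ := (((hW (d + 1) (by omega)).sub a2).ch w hw)
    exact ⟨rd d, h1 d (by omega), h2.att d (Nat.zero_le _) (by omega)⟩
  have hnic : ∀ d < n - 1, ∀ B : ℝ, B < 1 → NiC S₁ (cc hn o.1.1) d (fun _ : Fin 1 => cc hn o.1.1 d)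
      (fun l w => LvL hn P P' o l w w) (fun _ w => LvL hn P P' o d w w) G 0 0 B := by
    intro d hd B hB
    have hmon : ∀ l ≤ n - 1, ∀ w ∈ G, ∀ v ∈ G, w ≤ v → LvL hn P P' o l w w - w ≤
        LvL hn P P' o l v v - v := fun l hl w hw v hv hwv =>
      law_gap (H.lawL o l) (hGs hw).1.1.1.le hwv (hGs hv).1.1.2.1.le
        (lev_lt' H.toPk hTop hF (hGs hv) hl)
    exact
    { ne := a1
      pos := fun τ J F A h => hC.pos τ J F A (a2 τ J F A h)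
      tm := ⟨6, fun τ J F A hτ h => htm τ J F A hτ (a2 τ J F A h)⟩
      rn := fun w _ _ => ⟨η w, by
        rw [add_zero]
        exact hη w⟩
      cl := hG
      ch := (hW d (by omega)).sub a2
      mn := fun l hl w hw v hv hwv => by
        have := hmon l (by omega) w hw v hv hwv
        linarith
      att := fun _ w hw => hatt d hd w hw
      mT := fun _ w hw v hv hwv => hmon d (by omega) w hw v hv hwv
      B1 := hB }
  obtain ⟨S₂, b1, b2, b3⟩ := rj_le (sdI_T (cc hn o.1.1)) (n - 1) a1 hnic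
  refine ⟨S₂, b1, fun τ J F A h => a2 τ J F A (b2 τ J F A h), ?_⟩
  filter_upwards [b3, H.toPkT.dia_all H.pble hTop hF, gap_ae hG] with g h1 hdia hgap hg κ hκ p
  have ho := hGs hg
  have g0 : 0 < g := ho.1.1.1
  have g1 : g < 1 := ho.1.1.2.1
  have hpos₂ : ∀ (τ : ℝ) (J : ℕ) (F : Fam n J) (A : F.Ω → Prop), S₂.St τ J F A → 0 < Pe F.p A :=
    fun τ J F A h => hC.pos τ J F A (a2 τ J F A (b2 τ J F A h))
  refine ⟨0, ⟨η, fun w => (hη w).sub b2⟩, fun d hd => ((hW d hd).sub a2).sub b2, hgap hg,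
    fun e1 e2 Sr e3 e4 => ?_⟩
  have hdl : ∀ l < p.1, HasDerivAt (fun x => LvL hn P P' o l x x) 1 g := by
    intro l hl
    have h2 := hκ l (by omega)
    rw [e2 l hl] at h2
    have h3 : deriv (fun a => LvL hn P P' o l a a) g = 1 := h2
    have h4 := (hdia o ho l (by omega)).1.hasDerivAt
    rw [h3] at h4
    exact h4
  have hs1 := slope_ge (H.lawL o p.1) g0 g1 (lev_lt' H.toPk hTop hF ho (by omega)) e3
  have hchp := ((hW p.1 (by omega)).sub a2).sub b2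
  have hatp : ∀ b ∈ G, ∃ rk, 0 ≤ rk ∧ Att S₂ ((range p.1).image (cc hn o.1.1)) (cc hn o.1.1 p.1) b
      (LvL hn P P' o p.1 b b) rk := fun b hb => by
    obtain ⟨rk, r1, r2⟩ := hatt p.1 (by omega) b hb
    exact ⟨rk, r1, r2.sub b2⟩
  have hrn : ∀ w : ℚ, ∃ η, RNum S₂ (fun J F => ptr F J) (vg (w : ℝ)) η :=
    fun w => ⟨η w, (hη w).sub b2⟩
  have key : ∀ j : ℕ, ∃ φ : ℝ, 0 ≤ φ ∧ (p.2 < j → φ = 0) ∧ (1 ≤ j →
      RvU S₂ (fun (_ : ℕ) (F : Fam n _) => F.T) (cc hn o.1.1) p.1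
      (fun _ : Fin (p.2 + 1 - j) => cc hn o.1.1 p.1)
      (fun i => odv j i) (fun l w => LvL hn P P' o l w w) (fun _ w => LvL hn P P' o p.1 w w)
      G g φ) := by
    intro j
    rcases Nat.lt_or_ge p.2 j with hj | hj
    · exact ⟨0, le_rfl, fun _ => rfl, fun _ => rvU_empty (by omega) hpos₂⟩
    · have hR := h1 p.1 (by omega) (p.2 + 1 - j) j hg g0 g1
        (fun l hl => lev_lt' H.toPk hTop hF ho (by omega)) Sr (by linarith)
        (slB_ofn _ hdl e3 le_rfl (hgap hg)) (tgB_ofn _ e3 hs1 le_rfl)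
        (loB_ofn e3 fun i => by
          have h5 : j + (i : ℕ) ≤ p.2 := by
            have := i.2
            omega
          have h6 : ((odv j i : ℕ) : ℝ) ≤ p.2 := by
            unfold odv
            exact_mod_cast h5
          linarith)
      obtain ⟨φ, hφ, H⟩ := rvG_uni b1 hpos₂ hrn hchp hg
        (fun _ => hatp) (fun i => i.elim0) (show (0 : ℝ) ≤ Sr by linarith)
        (tgB_ofn _ e3 hs1 le_rfl) hR
      exact ⟨φ, hφ, fun h => absurd h (by omega), fun _ => H⟩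
  choose φ hφ hφ0 Hφ using key
  refine ⟨φ, hφ, fun j hj => ?_, hφ0, Hφ⟩
  rcases Nat.lt_or_ge p.2 (j + 1) with hj' | hj'
  · rw [hφ0 _ hj']
    exact hφ j
  · have e5 : p.2 + 1 - j = (p.2 + 1 - (j + 1)) + 1 := by omega
    have h2 := Hφ (j + 1) (by omega)
    refine rvU_mono b1 hpos₂ (n := p.2 + 1 - j) (n₂ := p.2 + 1 - (j + 1))
      (fun i => ⟨i + 1, by have := i.2; omega⟩) hrn hchp hg
      (fun _ => hatp) (show (0 : ℝ) ≤ Sr by linarith) (tgB_ofn _ e3 hs1 le_rfl) (Hφ j hj) ?_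
    have e6 : (fun i : Fin (p.2 + 1 - (j + 1)) => odv (j + 1) i) =
        fun i : Fin (p.2 + 1 - (j + 1)) => odv j (⟨i + 1, by have := i.2; omega⟩ :
          Fin (p.2 + 1 - j)) := by
      funext i
      unfold odv
      simp only
      omega
    rw [e6] at h2
    exact h2

end Pool.RJ28
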