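import Pool.Agent.H28.RJ.Box
import Pool.Agent.H28.RV.Uni

/-!
# One rate of the jets for all errors

`RtV`: the number of bits of the vector of jets, without jets of the second kind. `rtV_cmp`: two rates
are close. `dgj`: the excesses of the digits of a near path. `RvU`: the rate `φ` of the jets at the
point `g`, for all errors. `rvG_uni`: from `RjG` to `RvU`. `rvU_mono`: the rate of a part of the jets
is at most the rate of all jets.
-/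

set_option autoImplicit false

namespace Pool.RJ28

open Finset Real MvPolynomial
open Pool.Agent.H49.Ent Pool.Agent.H32.Dense Pool.STK Pool.KA Pool.KSAT Pool.K2S Pool.PB Pool.S6C
  Pool.GEN Pool.RCD Pool.LA91 Pool.LP30 Pool.LPJ30

section

variable {m : ℕ} {S : PCl m} {γ : ∀ J : ℕ, Fam m J → Type}
  {y₀ : ∀ (J : ℕ) (F : Fam m J), F.Ω → γ J F} {c : ℕ → Fin m} {d : ℕ}
  {sn : ℕ → ℝ → ℝ} {G : Set ℝ} {n : ℕ} {k : Fin n → Fin m} {od : Fin n → ℕ} {T : Fin n → ℝ → ℝ}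

/-- **The number of bits of the jets** of orders `od i` of the coordinates `k i` over the charts of
`b`, to the natural digits of `o`, given the near path over the charts of `b` and the record at `x`:
`ρ`, up to `κ`. -/
def RtV (S : PCl m) (y₀ : ∀ (J : ℕ) (F : Fam m J), F.Ω → γ J F) (c : ℕ → Fin m) (d : ℕ) {n : ℕ}
    (k : Fin n → Fin m) (od : Fin n → ℕ) (sn : ℕ → ℝ → ℝ)
    (T : Fin n → ℝ → ℝ) (nH nV : ℕ → ℝ) (b x o ρ κ : ℝ) : Prop :=
  ∃ κ₁ : ℝ, 0 < κ₁ ∧ ∃ e₀ : ℝ, 0 < e₀ ∧ ∀ K : ℕ, Bas S (fun J F A =>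
    ∀ (V : Type) (z : F.Ω → V), Mx (fun J F => ptr F J) (vg x) κ₁ F A z →
    ∀ u pa, (jtR m c d k od T b (fun i => T i o - od i * o)).P K e₀ J F A u →
    (paQ m c d b (fun l => sn l b) nH nV).P K e₀ J F A pa →
    |CH (Pool.Agent.H49.Ent.cond F.p A True) u (fun ω => (pa ω, (z ω, y₀ J F ω))) - ρ * J| ≤
      κ * J)

theorem RtV.sub {S' : PCl m} (hs : ∀ (τ : ℝ) (J : ℕ) (F : Fam m J) (A : F.Ω → Prop),
    S'.St τ J F A → S.St τ J F A) {b x o ρ κ : ℝ} {nH nV : ℕ → ℝ}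
    (h : RtV S y₀ c d k od sn T nH nV b x o ρ κ) : RtV S' y₀ c d k od sn T nH nV b x o ρ κ := by
  obtain ⟨k₁, hk, e, he, H⟩ := h
  exact ⟨k₁, hk, e, he, fun K => (H K).sub hs⟩

/-- Another rate and a larger error. -/
theorem RtV.le {b x o ρ κ ρ' κ' : ℝ} {nH nV : ℕ → ℝ} (h : RtV S y₀ c d k od sn T nH nV b x o ρ κ)
    (hκ : |ρ - ρ'| + κ ≤ κ') : RtV S y₀ c d k od sn T nH nV b x o ρ' κ' := by
  obtain ⟨k1, hk1, e1, he1, H⟩ := h
  refine ⟨k1, hk1, e1, he1, fun K => Bas.mono 0 (H K) ?_⟩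
  intro J _ F A H V z hz u pa hu hpa
  have h1 := abs_le.1 (H V z hz u pa hu hpa)
  have hJ : (0 : ℝ) ≤ J := Nat.cast_nonneg J
  have h2 := abs_le.1 (le_refl |ρ - ρ'|)
  have h3 : (|ρ - ρ'| + κ) * J ≤ κ' * J := mul_le_mul_of_nonneg_right hκ hJ
  have h4 : (ρ - ρ') * J ≤ |ρ - ρ'| * J := mul_le_mul_of_nonneg_right h2.2 hJ
  have h5 : -|ρ - ρ'| * J ≤ (ρ - ρ') * J := mul_le_mul_of_nonneg_right h2.1 hJ
  rw [abs_le]
  constructor <;> linarith [h1.1, h1.2]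

/-- From `RtJ`. -/
theorem RtJ.v {n' : ℕ} {kB : Fin n' → Fin m} {oB : Fin n' → ℕ} {TB : Fin n' → ℝ → ℝ}
    {nB : Fin n' → ℝ}
    (hpos : ∀ (τ : ℝ) (J : ℕ) (F : Fam m J) (A : F.Ω → Prop), S.St τ J F A → 0 < Pe F.p A)
    {b x o ρ κ : ℝ} {nH nV : ℕ → ℝ}
    (attB : ∀ i, ∃ rk : ℝ, 0 ≤ rk ∧ Att S ((range d).image c) (kB i) b (TB i b) rk)
    (h : RtJ S y₀ c d k od kB oB sn T TB nH nV nB b x o ρ κ) :
    RtV S y₀ c d k od sn T nH nV b x o ρ κ := by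
  obtain ⟨k1, hk1, e1, he1, H⟩ := h
  have xB : Exs S (jtR m c d kB oB TB b nB) := exs_pi fun i => by
    obtain ⟨rk, r1, r2⟩ := attB i
    exact exs_jet r1 r2
  obtain ⟨K₄, M₄, X4⟩ := xB e1 he1
  refine ⟨k1, hk1, e1, he1, fun K => Bas.mono 0 ((H (max K K₄)).and ((pos_bas hpos).and X4)) ?_⟩
  rintro J - F A ⟨H, hA, q, hq, -⟩ V z hz u pa hu hpa
  have h0 := (isLaw_cond F.isLaw hA).nonneg
  obtain ⟨h1, h2⟩ := H V z hz u q pa
    ((jtR m c d k od T b (fun i => T i o - od i * o)).mono (le_max_left _ _) le_rfl hu)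
    ((jtR m c d kB oB TB b nB).mono (le_max_right _ _) le_rfl hq)
    ((paQ m c d b (fun l => sn l b) nH nV).mono (le_max_left _ _) le_rfl hpa)
  have h3 : CH (Pool.Agent.H49.Ent.cond F.p A True) u
      (fun ω => ((pa ω, q ω), (z ω, y₀ J F ω))) ≤
      CH (Pool.Agent.H49.Ent.cond F.p A True) u (fun ω => (pa ω, (z ω, y₀ J F ω))) :=
    CH_mono_cond h0 fun ω ω' _ _ hh => by
      simp only [Prod.mk.injEq] at hh ⊢
      exact ⟨hh.1.1, hh.2⟩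
  have e1 : (ρ - κ) * J = ρ * J - κ * J := by ring
  have e2 : (ρ + κ) * J = ρ * J + κ * J := by ring
  rw [abs_le]
  constructor <;> linarith

/-- **Two rates** of the same jets, the second of a part of the jets. -/
theorem rtV_cmp (hne : S.Ne)
    (hpos : ∀ (τ : ℝ) (J : ℕ) (F : Fam m J) (A : F.Ω → Prop), S.St τ J F A → 0 < Pe F.p A)
    {b x o ρ₁ κ₁ ρ₂ κ₂ : ℝ} {nH nV : ℕ → ℝ} {n₂ : ℕ} (σ : Fin n₂ → Fin n)
    (hη : ∃ η, RNum S (fun J F => ptr F J) (vg x) η) (hW : ChG S c d sn G) (hb : b ∈ G)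
    (hat : ∀ i, ∃ rk, 0 ≤ rk ∧ Att S ((range d).image c) (k i) b (T i b) rk)
    (h1 : RtV S y₀ c d k od sn T nH nV b x o ρ₁ κ₁)
    (h2 : RtV S y₀ c d (fun i => k (σ i)) (fun i => od (σ i)) sn (fun i => T (σ i)) nH nV
      b x o ρ₂ κ₂) :
    ρ₂ - ρ₁ ≤ κ₁ + κ₂ := by
  obtain ⟨k1, hk1, e1, he1, H1⟩ := h1
  obtain ⟨k2, hk2, e2, he2, H2⟩ := h2
  obtain ⟨e₀, he₀, l1, l2⟩ : ∃ e₀ : ℝ, 0 < e₀ ∧ e₀ ≤ e1 ∧ e₀ ≤ e2 :=
    ⟨min e1 e2, by positivity, by simp, by simp⟩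
  obtain ⟨κ, hκ, m1, m2⟩ : ∃ κ : ℝ, 0 < κ ∧ κ ≤ k1 ∧ κ ≤ k2 :=
    ⟨min k1 k2, by positivity, by simp, by simp⟩
  obtain ⟨K₁, M₁, X1⟩ := exs_pa hW hb nH nV e₀ he₀
  have xv : Exs S (jtR m c d k od T b (fun i => T i o - od i * o)) := exs_pi fun i => by
    obtain ⟨rk, r1, r2⟩ := hat i
    exact exs_jet r1 r2
  obtain ⟨K₂, M₂, X2⟩ := xv e₀ he₀
  obtain ⟨η, hη⟩ := hη
  obtain ⟨L, hL1, hL2⟩ : ∃ L : ℕ, K₁ ≤ L ∧ K₂ ≤ L := ⟨max K₁ K₂, le_max_left _ _, le_max_right _ _⟩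
  obtain ⟨τ, hτ, J₁, HB⟩ := ((H1 L).and (H2 L)).and
    (((mx_ex hpos hη κ hκ).and (pos_bas hpos)).and (X1.and X2))
  obtain ⟨J, hJ, F, A, hA⟩ := hne τ hτ (max J₁ 1)
  obtain ⟨⟨b1, b2⟩, ⟨⟨V, z, hz⟩, hPA⟩, ⟨pa, hpa, -⟩, u, hu, -⟩ :=
    HB J ((le_max_left _ _).trans hJ) F A hA
  have h0 := (isLaw_cond F.isLaw hPA).nonneg
  have hJ1 : (1 : ℝ) ≤ J := by exact_mod_cast (le_max_right J₁ 1).trans hJ
  have hu' := (jtR m c d k od T b (fun i => T i o - od i * o)).mono hL2 le_rfl hu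
  have hpa' := (paQ m c d b (fun l => sn l b) nH nV).mono hL1 le_rfl hpa
  have hu2 : (jtR m c d (fun i => k (σ i)) (fun i => od (σ i)) (fun i => T (σ i)) b
      (fun i => T (σ i) o - od (σ i) * o)).P L e2 J F A (fun ω i => u ω (σ i)) := by
    intro i
    exact (jtR m c d k od T b (fun i => T i o - od i * o)).mono le_rfl l2 hu' (σ i)
  have r1 := abs_le.1 (b1 V z (hz.le' m1) u pa
    ((jtR m c d k od T b (fun i => T i o - od i * o)).mono le_rfl l1 hu')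
    ((paQ m c d b (fun l => sn l b) nH nV).mono le_rfl l1 hpa'))
  have r2 := abs_le.1 (b2 V z (hz.le' m2) (fun ω i => u ω (σ i)) pa hu2
    ((paQ m c d b (fun l => sn l b) nH nV).mono le_rfl l2 hpa'))
  have r3 : CH (Pool.Agent.H49.Ent.cond F.p A True) (fun ω i => u ω (σ i))
      (fun ω => (pa ω, (z ω, y₀ J F ω))) ≤ CH (Pool.Agent.H49.Ent.cond F.p A True) u
      (fun ω => (pa ω, (z ω, y₀ J F ω))) :=
    CH_mono_left h0 fun ω ω' _ _ hh => by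
      have h3 := (Prod.ext_iff.mp hh).1
      exact funext fun i => congrFun h3 (σ i)
  by_contra hlt
  rw [not_le] at hlt
  have h3 : (κ₁ + κ₂) * J < (ρ₂ - ρ₁) * J := mul_lt_mul_of_pos_right hlt (by linarith)
  linarith [r1.1, r1.2, r2.1, r2.2]

/-! ### The digits -/

/-- **The excesses** of the digits of a near path: a factor `4` between two places. -/
noncomputable def dgj (A D : ℝ) (r l : ℕ) : ℝ := (A + 4 * D) * 4 ^ (r - l)

theorem dgj_lt {A D : ℝ} (hA : 0 ≤ A) (hD : 0 < D) {r l : ℕ} (hl : l < r) :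
    4 * (A + 4 * D) ≤ dgj A D r l := by
  obtain ⟨e, he⟩ : ∃ e, r - l = e + 1 := ⟨r - l - 1, by omega⟩
  have h1 : (1 : ℝ) ≤ 4 ^ e := one_le_pow₀ (by norm_num)
  have h2 : (A + 4 * D) * 1 ≤ (A + 4 * D) * 4 ^ e := mul_le_mul_of_nonneg_left h1 (by linarith)
  unfold dgj
  rw [he, pow_succ]
  linarith

theorem dgj_st {A D : ℝ} (hA : 0 ≤ A) (hD : 0 < D) {r l l' : ℕ} (h : l' < l) (hl : l < r) :
    4 * dgj A D r l ≤ dgj A D r l' := by
  obtain ⟨e, he⟩ : ∃ e, r - l' = (r - l) + (e + 1) := ⟨l - l' - 1, by omega⟩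
  have h1 : (1 : ℝ) ≤ 4 ^ e := one_le_pow₀ (by norm_num)
  have h3 : (0 : ℝ) ≤ (A + 4 * D) * 4 ^ (r - l) := by positivity
  have h2 : (A + 4 * D) * 4 ^ (r - l) * 1 ≤ (A + 4 * D) * 4 ^ (r - l) * 4 ^ e :=
    mul_le_mul_of_nonneg_left h1 h3
  unfold dgj
  rw [he, pow_add, pow_succ]
  linarith

theorem dgj_le {A D : ℝ} (hA : 0 ≤ A) (hD : 0 < D) (r l : ℕ) :
    dgj A D r l ≤ (A + 4 * D) * 4 ^ r := by
  have h1 : (4 : ℝ) ^ (r - l) ≤ 4 ^ r := pow_le_pow_right₀ (by norm_num) (Nat.sub_le _ _)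
  exact mul_le_mul_of_nonneg_left h1 (by linarith)

/-- **The digits of a near path.** -/
theorem nrJ_dgj {n' : ℕ} {oB : Fin n' → ℕ} {TB : Fin n' → ℝ → ℝ} {b o τ κ₀ A D : ℝ} (hA : 0 ≤ A)
    (hD : 0 < D) (hob : b ≤ o) (hbo : o - b ≤ D) (hτ : τ ≤ D) (hT : ∀ i, T i o ≤ T i b + A)
    (hκ : (A + 4 * D) * 4 ^ d + 2 * D ≤ κ₀) :
    NrJ sn d T oB TB (fun l => sn l b + dgj A D d l + 2 * D)
      (fun l => sn l b + dgj A D d l + 2 * D - b) (dgj A D d) (fun i => TB i b - oB i * o)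
      b o τ κ₀ where
  nr :=
  { lv0 := fun l hl => by linarith [dgj_lt hA hD hl]
    h := fun l hl => by linarith
    v := fun l hl => by linarith
    s := fun l hl l' hl' => by linarith [dgj_st hA hD hl' hl, dgj_lt hA hD hl]
    sh := fun l hl l' hl' => by linarith [dgj_st hA hD hl' hl, dgj_lt hA hD hl]
    sv := fun l hl l' hl' => by linarith [dgj_st hA hD hl' hl, dgj_lt hA hD hl]
    t := fun i l hl => by linarith [dgj_lt hA hD hl, hT i]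
    kh := fun l hl => by linarith [dgj_le hA hD d l]
    kv := fun l hl => by linarith [dgj_le hA hD d l] }
  g := fun l hl l' hl' => by linarith [dgj_st hA hD hl' hl, dgj_lt hA hD hl]
  B1 := fun i => by
    have h1 : (0 : ℝ) ≤ oB i := Nat.cast_nonneg _
    have h2 : (0 : ℝ) ≤ oB i * (o - b) := mul_nonneg h1 (by linarith)
    have h3 : (0 : ℝ) ≤ (A + 4 * D) * 4 ^ d := by positivity
    linarith
  B2 := fun i l hl => by linarith [dgj_lt hA hD hl]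

/-! ### The rate -/

/-- **The rate** `φ` of the jets given the near path at the point `g`, for all errors. -/
def RvU (S : PCl m) (y₀ : ∀ (J : ℕ) (F : Fam m J), F.Ω → γ J F) (c : ℕ → Fin m) (d : ℕ) {n : ℕ}
    (k : Fin n → Fin m) (od : Fin n → ℕ) (sn : ℕ → ℝ → ℝ) (T : Fin n → ℝ → ℝ) (G : Set ℝ)
    (g φ : ℝ) : Prop :=
  ∀ e : ℝ, 0 < e → ∃ κ₀ : ℝ, 0 < κ₀ ∧ ∃ r₀ : ℝ, 0 < r₀ ∧
    ∀ r : ℝ, 0 < r → r < r₀ →
    ∀ b ∈ G, ∀ x o : ℝ, g - r ≤ b → b ≤ x → x ≤ o → o ≤ g + r →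
    ∀ nH nV lv : ℕ → ℝ, NrW sn d T nH nV lv b o (e * r) κ₀ →
      (∀ l < d, ∀ l' < l, 3 * (lv l + e * r) ≤ lv l') →
      RtV S y₀ c d k od sn T nH nV b x o (φ * (o - x)) (e * r)

theorem RvU.sub {S' : PCl m} (hs : ∀ (τ : ℝ) (J : ℕ) (F : Fam m J) (A : F.Ω → Prop),
    S'.St τ J F A → S.St τ J F A) {g φ : ℝ} (h : RvU S y₀ c d k od sn T G g φ) :
    RvU S' y₀ c d k od sn T G g φ := by
  intro e he
  obtain ⟨κ₀, hκ, r₀, hr, H⟩ := h e he
  exact ⟨κ₀, hκ, r₀, hr, fun r h1 h2 b hb x o a1 a2 a3 a4 nH nV lv hN hg =>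
    (H r h1 h2 b hb x o a1 a2 a3 a4 nH nV lv hN hg).sub hs⟩

/-- From `NrW` to `NrJ`, any levels of the second kind. -/
theorem nrJ_of {n' : ℕ} {oB : Fin n' → ℕ} {TB : Fin n' → ℝ → ℝ} {b o τ κ₀ : ℝ}
    {nH nV lv : ℕ → ℝ} (h : NrW sn d T nH nV lv b o τ κ₀) (hg : ∀ l < d, ∀ l' < l,
      3 * (lv l + τ) ≤ lv l') (hob : b ≤ o) (hτ : 0 ≤ τ) (hκ : 0 ≤ κ₀) :
    NrJ sn d T oB TB nH nV lv (fun i => TB i b - oB i * o - τ) b o τ κ₀ where
  nr := h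
  g := hg
  B1 := fun i => by
    have h1 : (0 : ℝ) ≤ oB i := Nat.cast_nonneg _
    have h2 : (0 : ℝ) ≤ oB i * (o - b) := mul_nonneg h1 (by linarith)
    linarith
  B2 := fun i l hl => by linarith [h.lv0 l hl]

/-- **One rate for all errors**, jets without jets of the second kind. -/
theorem rvG_uni (hne : S.Ne)
    (hpos : ∀ (τ : ℝ) (J : ℕ) (F : Fam m J) (A : F.Ω → Prop), S.St τ J F A → 0 < Pe F.p A)
    {n' : ℕ} {kB : Fin n' → Fin m} {oB : Fin n' → ℕ} {TB : Fin n' → ℝ → ℝ}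
    {g Sg : ℝ} (hη : ∀ w : ℚ, ∃ η, RNum S (fun J F => ptr F J) (vg (w : ℝ)) η)
    (hW : ChG S c d sn G) (hg : g ∈ G)
    (hat : ∀ i, ∀ b ∈ G, ∃ rk, 0 ≤ rk ∧ Att S ((range d).image c) (k i) b (T i b) rk)
    (hatB : ∀ i, ∀ b ∈ G, ∃ rk, 0 ≤ rk ∧ Att S ((range d).image c) (kB i) b (TB i b) rk)
    (hSg : 0 ≤ Sg) (hT : TgB T g Sg) (h : RjG S y₀ c d k od kB oB sn T TB G g) :
    ∃ φ : ℝ, 0 ≤ φ ∧ RvU S y₀ c d k od sn T G g φ := by
  have he : ∀ i : ℕ, (0 : ℝ) < 1 / ((i : ℝ) + 1) := fun i => by positivity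
  choose φ hφ κ₀ hκ₀ r₀ hr₀ H using fun i : ℕ => h _ (he i)
  obtain ⟨ρ₁, hρ₁, hT⟩ := hT 1 one_pos
  have key : ∀ i j : ℕ, φ i - φ j ≤ 2 * (1 / ((i : ℝ) + 1) + 1 / ((j : ℝ) + 1)) := by
    intro i j
    obtain ⟨C, hC⟩ : ∃ C : ℝ, C = ((Sg + 1) + 4 * 2) * 4 ^ d + 4 := ⟨_, rfl⟩
    have hC0 : 0 < C := by
      rw [hC]
      positivity
    obtain ⟨r, hr, s1, s2, s3, s4⟩ : ∃ r : ℝ, 0 < r ∧ r < ρ₁ ∧ r < r₀ i ∧ r < r₀ j ∧
        C * r ≤ min (κ₀ i) (κ₀ j) := by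
      have hm : 0 < min (min ρ₁ (min (r₀ i) (r₀ j))) (min (κ₀ i) (κ₀ j) / C) :=
        lt_min (lt_min hρ₁ (lt_min (hr₀ i) (hr₀ j))) (div_pos (lt_min (hκ₀ i) (hκ₀ j)) hC0)
      refine ⟨min (min ρ₁ (min (r₀ i) (r₀ j))) (min (κ₀ i) (κ₀ j) / C) / 2, by positivity, ?_, ?_,
        ?_, ?_⟩
      · exact (half_lt_self hm).trans_le ((min_le_left _ _).trans (min_le_left _ _))
      · exact (half_lt_self hm).trans_le ((min_le_left _ _).trans ((min_le_right _ _).trans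
          (min_le_left _ _)))
      · exact (half_lt_self hm).trans_le ((min_le_left _ _).trans ((min_le_right _ _).trans
          (min_le_right _ _)))
      · have h1 := (half_lt_self hm).le.trans (min_le_right _ _)
        rw [le_div_iff₀ hC0] at h1
        linarith
    have hl : ∀ i : ℕ, 1 / ((i : ℝ) + 1) ≤ 1 := fun i => by
      rw [div_le_one (by positivity)]
      have : (0 : ℝ) ≤ i := Nat.cast_nonneg i
      linarith
    obtain ⟨x, x1, x2⟩ := exists_rat_btwn (show g < g + r / 2 by linarith)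
    have hN : ∀ l : ℕ, l = i ∨ l = j → NrJ sn d T oB TB
        (fun l => sn l g + dgj ((Sg + 1) * r) (2 * r) d l + 2 * (2 * r))
        (fun l => sn l g + dgj ((Sg + 1) * r) (2 * r) d l + 2 * (2 * r) - g)
        (dgj ((Sg + 1) * r) (2 * r) d) (fun i => TB i g - oB i * (g + r)) g (g + r)
        (1 / ((l : ℝ) + 1) * r) (κ₀ l) := by
      intro l hl'
      refine nrJ_dgj (by positivity) (by linarith) (by linarith) (by linarith) ?_ (fun i' => ?_) ?_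
      · have := mul_le_mul_of_nonneg_right (hl l) hr.le
        linarith
      · have := (hT r hr s1 i' g (g + r) (by linarith) (by linarith) le_rfl).2
        linarith
      · have h1 : C * r ≤ κ₀ l := by
          rcases hl' with rfl | rfl
          · exact s4.trans (min_le_left _ _)
          · exact s4.trans (min_le_right _ _)
        have h2 : C * r = ((Sg + 1) * r + 4 * (2 * r)) * 4 ^ d + 2 * (2 * r) := by
          rw [hC]
          ring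
        linarith
    have h1 := (H i r hr s2 g hg x (g + r) (by linarith) x1.le (by linarith) le_rfl _ _ _ _
      (hN i (Or.inl rfl))).v hpos fun i => hatB i g hg
    have h2 := (H j r hr s3 g hg x (g + r) (by linarith) x1.le (by linarith) le_rfl _ _ _ _
      (hN j (Or.inr rfl))).v hpos fun i => hatB i g hg
    have h3 := rtV_cmp hne hpos (fun i : Fin n => i) (hη x) hW hg (fun i => hat i g hg) h2 h1
    have h4 : 0 < g + r - x := by linarith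
    have h6 : (φ i - φ j) * (g + r - x) ≤
        2 * (1 / ((i : ℝ) + 1) + 1 / ((j : ℝ) + 1)) * (g + r - x) := by
      have h5 : (1 / ((i : ℝ) + 1) + 1 / ((j : ℝ) + 1)) * (r / 2) ≤
          (1 / ((i : ℝ) + 1) + 1 / ((j : ℝ) + 1)) * (g + r - x) :=
        mul_le_mul_of_nonneg_left (by linarith) (by linarith [(he i).le, (he j).le])
      linarith
    exact le_of_mul_le_mul_right h6 h4
  have hbd : BddAbove (Set.range fun i : ℕ => φ i - 2 * (1 / ((i : ℝ) + 1))) := by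
    refine ⟨φ 0 + 2 * (1 / (((0 : ℕ) : ℝ) + 1)), ?_⟩
    rintro _ ⟨i, rfl⟩
    have := key i 0
    simp only
    linarith
  obtain ⟨φ₀, hφ₀⟩ : ∃ φ₀ : ℝ, φ₀ = ⨆ i : ℕ, (φ i - 2 * (1 / ((i : ℝ) + 1))) := ⟨_, rfl⟩
  have g1 : ∀ i : ℕ, φ i - 2 * (1 / ((i : ℝ) + 1)) ≤ φ₀ := fun i => by
    rw [hφ₀]
    exact le_ciSup hbd i
  have g2 : ∀ i : ℕ, φ₀ ≤ φ i + 2 * (1 / ((i : ℝ) + 1)) := fun i => by
    rw [hφ₀]
    refine ciSup_le fun j => ?_
    have := key j i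
    linarith
  refine ⟨φ₀, ?_, ?_⟩
  · by_contra hlt
    rw [not_le] at hlt
    obtain ⟨i, hi⟩ := exists_nat_one_div_lt (show 0 < -φ₀ / 2 by linarith)
    linarith [g1 i, hφ i]
  · intro e he'
    obtain ⟨i, hi⟩ := exists_nat_one_div_lt (show 0 < e / 5 by positivity)
    refine ⟨κ₀ i, hκ₀ i, r₀ i, hr₀ i, fun r hr hrr b hb x o a1 a2 a3 a4 nH nV lv hN hgp => ?_⟩
    have h1 : 1 / ((i : ℝ) + 1) * r ≤ e / 5 * r := mul_le_mul_of_nonneg_right hi.le hr.le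
    have h4 : 0 < e * r := mul_pos he' hr
    have h7 : 0 < 1 / ((i : ℝ) + 1) * r := mul_pos (he i) hr
    have h2 := (H i r hr hrr b hb x o a1 a2 a3 a4 nH nV lv _
      (nrJ_of (oB := oB) (TB := TB) (Pool.RV28.nrW_τ hN (by linarith)) (fun l hl l' hl' => by
        linarith [hgp l hl l' hl']) (a2.trans a3) h7.le (hκ₀ i).le)).v hpos fun i => hatB i b hb
    refine h2.le ?_
    have h3 : |φ i * (o - x) - φ₀ * (o - x)| ≤ 2 * (e / 5) * (2 * r) := by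
      rw [← sub_mul, abs_mul, abs_of_nonneg (show 0 ≤ o - x by linarith)]
      refine mul_le_mul ?_ (by linarith) (by linarith) (by positivity)
      rw [abs_le]
      constructor <;> linarith [g1 i, g2 i]
    linarith

end

end Pool.RJ28
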